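import Mathlib

set_option autoImplicit false

/-!
A group `G` of bijections of the boundary of a tree with one end removed.  The tree has the balls of
`Om` as vertices; `G` consists of the bijections that move balls to balls, shift the levels by a
constant, and act on the children of each vertex by an affine map of determinant one of `ℚ × ℚ`.
-/

namespace Pool.Agent.H828_QP

/-- the index set of the children of a vertex -/
abbrev S := ℚ × ℚ

/-- the affine maps of determinant one -/
def IsAff (p : Equiv.Perm S) : Prop :=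
  ∃ a b c d e f : ℚ, a * d - b * c = 1 ∧
    ∀ v : S, p v = (a * v.1 + b * v.2 + e, c * v.1 + d * v.2 + f)

/-- the group of affine maps of determinant one -/
def P0 : Subgroup (Equiv.Perm S) where
  carrier := {p | IsAff p}
  one_mem' := ⟨1, 0, 0, 1, 0, 0, by norm_num, fun v => by ext <;> simp⟩
  mul_mem' := by
    rintro p q ⟨a, b, c, d, e, f, h, hp⟩ ⟨a', b', c', d', e', f', h', hq⟩
    refine ⟨a * a' + b * c', a * b' + b * d', c * a' + d * c', c * b' + d * d',
      a * e' + b * f' + e, c * e' + d * f' + f, ?_, fun v => ?_⟩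
    · linear_combination h * (a' * d' - b' * c') + h'
    · rw [Equiv.Perm.mul_apply, hq, hp]
      ext <;> simp <;> ring
  inv_mem' := by
    rintro p ⟨a, b, c, d, e, f, h, hp⟩
    refine ⟨d, -b, -c, a, -d * e + b * f, c * e - a * f, by linear_combination h, fun v => ?_⟩
    rw [Equiv.Perm.inv_eq_iff_eq, hp]
    ext
    · simp only
      linear_combination (-v.1 + e) * h
    · simp only
      linear_combination (-v.2 + f) * h

/-- the points: sequences indexed by `ℤ` that vanish far to the left -/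
structure Om : Type where
  /-- the sequence -/
  f : ℤ → S
  /-- it vanishes far to the left -/
  h : ∃ N : ℤ, ∀ i < N, f i = 0

instance : CoeFun Om (fun _ => ℤ → S) := ⟨Om.f⟩

theorem Om.ext' {x y : Om} (h : ∀ i, x i = y i) : x = y := by
  cases x; cases y; congr; exact funext h

/-- the base point -/
def o : Om := ⟨fun _ => 0, 0, fun _ _ => rfl⟩

@[simp] theorem o_apply (i : ℤ) : o i = 0 := rfl

/-- the two points agree at all the indices before `i` -/
def agree (x y : Om) (i : ℤ) : Prop := ∀ j < i, x j = y j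

theorem agree_refl (x : Om) (i : ℤ) : agree x x i := fun _ _ => rfl

theorem agree.symm {x y : Om} {i : ℤ} (h : agree x y i) : agree y x i := fun j hj => (h j hj).symm

theorem agree.trans {x y z : Om} {i : ℤ} (h : agree x y i) (h' : agree y z i) : agree x z i :=
  fun j hj => (h j hj).trans (h' j hj)

theorem agree.mono {x y : Om} {i i' : ℤ} (h : agree x y i) (hi : i' ≤ i) : agree x y i' :=
  fun j hj => h j (lt_of_lt_of_le hj hi)

theorem exists_agree (x y : Om) : ∃ i : ℤ, i ≤ 0 ∧ agree x y i := by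
  obtain ⟨N, hN⟩ := x.h
  obtain ⟨M, hM⟩ := y.h
  refine ⟨min 0 (min N M), min_le_left _ _, fun j hj => ?_⟩
  rw [hN j (by omega), hM j (by omega)]

/-- `g` acts at each vertex by a member of `P0`, with the levels shifted by `k` -/
def Loc (g : Om → Om) (k : ℤ) : Prop :=
  ∀ (x : Om) (i : ℤ), ∃ p ∈ P0, ∀ y : Om, agree x y i → (g y) (i + k) = p (y i)

theorem Loc.agree {g : Om → Om} {k : ℤ} (h : Loc g k) {x y : Om} {i : ℤ} (hxy : agree x y i) :
    Pool.Agent.H828_QP.agree (g x) (g y) (i + k) := by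
  intro j hj
  obtain ⟨p, -, hp⟩ := h x (j - k)
  have h1 := hp x (agree_refl _ _)
  have h2 := hp y (hxy.mono (by omega))
  rw [sub_add_cancel] at h1 h2
  rw [h1, h2, hxy (j - k) (by omega)]

theorem Loc.comp {g h : Om → Om} {k l : ℤ} (hg : Loc g k) (hh : Loc h l) :
    Loc (fun x => g (h x)) (k + l) := by
  intro x i
  obtain ⟨q, hq, hq'⟩ := hh x i
  obtain ⟨p, hp, hp'⟩ := hg (h x) (i + l)
  refine ⟨p * q, P0.mul_mem hp hq, fun y hy => ?_⟩
  have := hp' (h y) (hh.agree hy)
  rw [show i + (k + l) = i + l + k by ring, this, hq' y hy, Equiv.Perm.mul_apply]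

theorem Loc.id : Loc (fun x => x) 0 := fun _ _ => ⟨1, P0.one_mem, fun y _ => by simp⟩

theorem Loc.id' : Loc (_root_.id) 0 := Loc.id

/-- the group, as a subgroup of the pairs (bijection, shift of the levels) -/
def GG : Subgroup (Equiv.Perm Om × Multiplicative ℤ) where
  carrier := {q | Loc q.1 (Multiplicative.toAdd q.2) ∧ Loc (q.1⁻¹ : Equiv.Perm Om) (-(Multiplicative.toAdd q.2))}
  one_mem' := ⟨Loc.id, by simpa using Loc.id'⟩
  mul_mem' := by
    rintro ⟨g, k⟩ ⟨h, l⟩ ⟨h1, h2⟩ ⟨h3, h4⟩
    refine ⟨h1.comp h3, ?_⟩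
    have := h4.comp h2
    simp only [Prod.mk_mul_mk, mul_inv_rev, toAdd_mul, neg_add_rev]
    exact this
  inv_mem' := by
    rintro ⟨g, k⟩ ⟨h1, h2⟩
    refine ⟨h2, ?_⟩
    simpa using h1

/-- the group -/
abbrev G : Type := GG

/-- the shift of the levels -/
def kk (g : G) : ℤ := Multiplicative.toAdd g.1.2

/-- the action on the points -/
def ap (g : G) (x : Om) : Om := g.1.1 x

theorem loc (g : G) : Loc (ap g) (kk g) := g.2.1

@[simp] theorem kk_one : kk 1 = 0 := rfl
@[simp] theorem kk_mul (g h : G) : kk (g * h) = kk g + kk h := rfl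
@[simp] theorem kk_inv (g : G) : kk g⁻¹ = -kk g := rfl
@[simp] theorem kk_pow (g : G) (n : ℕ) : kk (g ^ n) = n * kk g := by
  induction n with
  | zero => simp
  | succ n ih => rw [pow_succ, kk_mul, ih]; push_cast; ring
@[simp] theorem kk_zpow (g : G) (n : ℤ) : kk (g ^ n) = n * kk g := by
  cases n with
  | ofNat n => simp
  | negSucc n => rw [zpow_negSucc, kk_inv, kk_pow, Int.negSucc_eq]; push_cast; ring

@[simp] theorem ap_one (x : Om) : ap 1 x = x := rfl
@[simp] theorem ap_mul (g h : G) (x : Om) : ap (g * h) x = ap g (ap h x) := rfl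
@[simp] theorem ap_inv_ap (g : G) (x : Om) : ap g⁻¹ (ap g x) = x := by
  rw [← ap_mul, inv_mul_cancel, ap_one]
@[simp] theorem ap_ap_inv (g : G) (x : Om) : ap g (ap g⁻¹ x) = x := by
  rw [← ap_mul, mul_inv_cancel, ap_one]

theorem G.ext {g h : G} (hk : kk g = kk h) (hx : ∀ x, ap g x = ap h x) : g = h :=
  Subtype.ext (Prod.ext (Equiv.ext hx) hk)

theorem agree_iff (g : G) (x y : Om) (i : ℤ) :
    agree (ap g x) (ap g y) (i + kk g) ↔ agree x y i := by
  constructor
  · intro h
    have := (loc g⁻¹).agree h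
    simpa using this
  · exact (loc g).agree

/-- builder for elements of the group -/
def mkG (f f' : Om → Om) (k : ℤ) (h1 : ∀ x, f' (f x) = x) (h2 : ∀ x, f (f' x) = x)
    (hf : Loc f k) (hf' : Loc f' (-k)) : G :=
  ⟨(⟨f, f', h1, h2⟩, Multiplicative.ofAdd k), hf, hf'⟩

@[simp] theorem kk_mkG (f f' : Om → Om) (k : ℤ) (h1 : ∀ x, f' (f x) = x) (h2 : ∀ x, f (f' x) = x)
    (hf : Loc f k) (hf' : Loc f' (-k)) : kk (mkG f f' k h1 h2 hf hf') = k := rfl

@[simp] theorem ap_mkG (f f' : Om → Om) (k : ℤ) (h1 : ∀ x, f' (f x) = x) (h2 : ∀ x, f (f' x) = x)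
    (hf : Loc f k) (hf' : Loc f' (-k)) (x : Om) : ap (mkG f f' k h1 h2 hf hf') x = f x := rfl

/-! ### the shift -/

/-- shift of a sequence -/
def sh (n : ℤ) (x : Om) : Om := ⟨fun i => x (i - n), by
  obtain ⟨N, hN⟩ := x.h
  exact ⟨N + n, fun i hi => hN _ (by omega)⟩⟩

@[simp] theorem sh_apply (n : ℤ) (x : Om) (i : ℤ) : sh n x i = x (i - n) := rfl

theorem loc_sh (n : ℤ) : Loc (sh n) n := fun x i => ⟨1, P0.one_mem, fun y _ => by simp⟩

/-- the element `t` of the group: the shift by one -/
def t : G := mkG (sh 1) (sh (-1)) 1 (fun x => Om.ext' fun i => by simp)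
  (fun x => Om.ext' fun i => by simp) (loc_sh 1) (loc_sh (-1))

@[simp] theorem kk_t : kk t = 1 := rfl
@[simp] theorem ap_t (x : Om) (i : ℤ) : ap t x i = x (i - 1) := rfl
theorem ap_t_o : ap t o = o := rfl

theorem ap_tinv (x : Om) (i : ℤ) : ap t⁻¹ x i = x (i + 1) := by
  have := ap_t (ap t⁻¹ x) (i + 1)
  simpa using this.symm

theorem ap_tpow (n : ℕ) (x : Om) (i : ℤ) : ap (t ^ n) x i = x (i - n) := by
  induction n generalizing i with
  | zero => simp
  | succ n ih =>
    rw [pow_succ', ap_mul, ap_t, ih, show i - 1 - (n : ℤ) = i - ((n + 1 : ℕ) : ℤ) by push_cast; ring]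

theorem ap_tzpow (n : ℤ) (x : Om) (i : ℤ) : ap (t ^ n) x i = x (i - n) := by
  induction n using Int.induction_on generalizing i with
  | zero => simp
  | succ n ih =>
    rw [add_comm, zpow_add, zpow_one, ap_mul, ap_t, ih, show i - 1 - (n : ℤ) = i - (1 + n) by ring]
  | pred n ih =>
    rw [sub_eq_neg_add, zpow_add, zpow_neg_one, ap_mul, ap_tinv, ih,
      show i + 1 - (-(n : ℤ)) = i - (-1 + -n) by ring]

theorem ap_tzpow_o (n : ℤ) : ap (t ^ n) o = o := Om.ext' fun i => by rw [ap_tzpow]; rfl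

/-! ### translations -/

/-- translation of a sequence by a sequence -/
def addOm (b : Om) (x : Om) : Om := ⟨fun i => x i + b i, by
  obtain ⟨N, hN⟩ := x.h
  obtain ⟨M, hM⟩ := b.h
  exact ⟨min N M, fun i hi => by simp only [hN i (by omega), hM i (by omega), add_zero]⟩⟩

/-- the opposite sequence -/
def negOm (b : Om) : Om := ⟨fun i => -b i, by
  obtain ⟨M, hM⟩ := b.h
  exact ⟨M, fun i hi => by simp only [hM i hi, neg_zero]⟩⟩

@[simp] theorem addOm_apply (b x : Om) (i : ℤ) : addOm b x i = x i + b i := rfl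
@[simp] theorem negOm_apply (b : Om) (i : ℤ) : negOm b i = -b i := rfl

theorem loc_addOm (b : Om) : Loc (addOm b) 0 := by
  intro x i
  refine ⟨Equiv.addRight (b i), ⟨1, 0, 0, 1, (b i).1, (b i).2, by norm_num, fun v => ?_⟩,
    fun y _ => by simp⟩
  ext <;> simp

/-- translation, as an element of the group -/
def tr (b : Om) : G := mkG (addOm b) (addOm (negOm b)) 0 (fun x => Om.ext' fun i => by simp)
  (fun x => Om.ext' fun i => by simp) (loc_addOm b) (by simpa using loc_addOm (negOm b))

@[simp] theorem kk_tr (b : Om) : kk (tr b) = 0 := rfl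
@[simp] theorem ap_tr (b x : Om) (i : ℤ) : ap (tr b) x i = x i + b i := rfl

/-! ### the order of a point -/

theorem exists_ord {x : Om} (h : x ≠ o) : ∃ j, x j ≠ 0 ∧ agree o x j := by
  obtain ⟨N, hN⟩ := x.h
  have h1 : ∃ i, x i ≠ 0 := by
    by_contra hc
    push Not at hc
    exact h (Om.ext' fun i => by rw [hc i]; rfl)
  obtain ⟨j, hj, hj'⟩ := Int.exists_least_of_bdd (P := fun i => x i ≠ 0)
    ⟨N, fun z hz => by by_contra hc; exact hz (hN z (by omega))⟩ h1
  refine ⟨j, hj, fun i hi => ?_⟩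
  by_contra hc
  exact absurd (hj' i (fun h0 => hc (by rw [h0]; rfl))) (by omega)

open Classical in
/-- the first index at which the point does not vanish -/
noncomputable def ord (x : Om) : ℤ := if h : x = o then 0 else (exists_ord h).choose

theorem ord_ne {x : Om} (h : x ≠ o) : x (ord x) ≠ 0 := by
  rw [ord, dif_neg h]; exact (exists_ord h).choose_spec.1

theorem ord_agree {x : Om} (h : x ≠ o) : agree o x (ord x) := by
  rw [ord, dif_neg h]; exact (exists_ord h).choose_spec.2

theorem ord_eq {x : Om} {j : ℤ} (h1 : x j ≠ 0) (h2 : agree o x j) : ord x = j := by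
  have hx : x ≠ o := by rintro rfl; exact h1 rfl
  rcases lt_trichotomy (ord x) j with h | h | h
  · exact absurd (h2 _ h).symm (by simpa using ord_ne hx)
  · exact h
  · exact absurd (ord_agree hx _ h).symm (by simpa using h1)

theorem lt_ord {x : Om} {i : ℤ} (hx : x ≠ o) (h : agree o x i) : i ≤ ord x := by
  by_contra hc
  exact ord_ne hx (h _ (by omega)).symm

end Pool.Agent.H828_QP
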