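import Pool.Agent.H828_QP.Rigid

set_option autoImplicit false

namespace Pool.Agent.H828_QP

/-- length functions on the group -/
structure IsLen (L : G → ℕ) : Prop where
  one : L 1 = 0
  mul : ∀ g h, L (g * h) ≤ L g + L h
  inv : ∀ g, L g⁻¹ = L g

open Classical in
theorem res_lev (M : Set ℤ) (v : ℤ → Ao) :
    res M (lev v) = lev (fun j => if j ∈ M then v j else 1) := by
  apply Subtype.ext
  refine G.ext ?_ fun x => ?_
  · rw [(res M (lev v)).2.1, (lev (fun j => if j ∈ M then v j else 1)).2.1]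
  · rw [res_def, ap_lev, ap_lev]
    by_cases h : ord x ∈ M
    · rw [if_pos h, if_pos h, ap_lev]
    · rw [if_neg h, if_neg h]

theorem res_res (M N : Set ℤ) (w : Ao) : res M (res N w) = res (M ∩ N) w := by
  rw [res_def N, res_lev, res_def (M ∩ N)]
  congr 1
  ext1 j
  by_cases h1 : j ∈ M <;> by_cases h2 : j ∈ N <;> simp [h1, h2]

theorem res_split (M N : Set ℤ) (w : Ao) : res (M ∪ N) w = res M w * res N (res Mᶜ w) := by
  rw [res_res, ← res_union]
  · congr 2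
    ext j
    simp only [Set.mem_union, Set.mem_inter_iff, Set.mem_compl_iff]
    tauto
  · rw [Set.disjoint_left]
    intro j hj hj'
    exact hj'.2 hj

/-- disjoint sets of levels -/
def EN (n : ℕ) : Set ℤ := {j | j % 2 ^ (n + 1) = 2 ^ n}

theorem EN_unique_aux {j : ℤ} {n m : ℕ} (h : j ∈ EN n) (h' : j ∈ EN m) (hlt : n < m) : False := by
  have h1 : j % 2 ^ (n + 1) = 2 ^ n := h
  have h2 : j % 2 ^ (m + 1) = 2 ^ m := h'
  have h3 : (2 : ℤ) ^ m ∣ j := by
    have := Int.emod_add_mul_ediv j (2 ^ (m + 1))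
    rw [h2] at this
    rw [← this, pow_succ]
    exact ⟨1 + 2 * (j / (2 ^ m * 2)), by ring⟩
  have h4 : (2 : ℤ) ^ (n + 1) ∣ j := dvd_trans (pow_dvd_pow 2 hlt) h3
  rw [Int.emod_eq_zero_of_dvd h4] at h1
  exact absurd h1.symm (by positivity)

theorem EN_unique {j : ℤ} {n m : ℕ} (h : j ∈ EN n) (h' : j ∈ EN m) : n = m := by
  rcases lt_trichotomy n m with hlt | heq | hlt
  · exact (EN_unique_aux h h' hlt).elim
  · exact heq
  · exact (EN_unique_aux h' h hlt).elim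

variable {L : G → ℕ}

/-- the diagonal argument -/
theorem diag (L : G → ℕ) :
    ∃ n c : ℕ, ∀ x : Ao, ∃ y : Ao, L y ≤ c ∧ res (EN n) y = res (EN n) x := by
  classical
  by_contra hcon
  push Not at hcon
  choose x hx using fun n => hcon n n
  let v : ℤ → Ao := fun j => if h : ∃ n, j ∈ EN n then x h.choose else 1
  have hv : ∀ n, res (EN n) (lev v) = res (EN n) (x n) := by
    intro n
    rw [res_lev, res_def]
    congr 1
    ext1 j
    by_cases h : j ∈ EN n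
    · rw [if_pos h, if_pos h]
      have h' : ∃ n, j ∈ EN n := ⟨n, h⟩
      have h2 : h'.choose = n := EN_unique h'.choose_spec h
      simp only [v]
      rw [dif_pos h', h2]
    · rw [if_neg h, if_neg h]
  exact hx (L (lev v : Ao)) (lev v) le_rfl (hv _)

theorem IsLen.comm (hL : IsLen L) (a b : G) : L (a * b * a⁻¹ * b⁻¹) ≤ 2 * L a + 2 * L b := by
  have h1 := hL.mul (a * b * a⁻¹) b⁻¹
  have h2 := hL.mul (a * b) a⁻¹
  have h3 := hL.mul a b
  rw [hL.inv] at h1 h2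
  omega

theorem IsLen.conj (hL : IsLen L) (a b : G) : L (a * b * a⁻¹) ≤ 2 * L a + L b := by
  have h2 := hL.mul (a * b) a⁻¹
  have h3 := hL.mul a b
  rw [hL.inv] at h2
  omega

theorem bdd_EN (hL : IsLen L) : ∃ n C : ℕ, ∀ w : Ao, L (res (EN n) w : Ao) ≤ C := by
  obtain ⟨n, c, h⟩ := diag L
  refine ⟨n, 5 * (2 * c + 2 * L (res (EN n) zz : Ao)), fun w => ?_⟩
  have key : ∀ x : Ao, L (res (EN n) (x * zz * x⁻¹ * zz⁻¹) : Ao) ≤
      2 * c + 2 * L (res (EN n) zz : Ao) := by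
    intro x
    obtain ⟨y, hy, hyx⟩ := h x
    have h1 : res (EN n) (x * zz * x⁻¹ * zz⁻¹) = y * res (EN n) zz * y⁻¹ * (res (EN n) zz)⁻¹ := by
      rw [← comm_res', ← hyx, comm_res', comm_res]
    rw [h1]
    have h2 := hL.comm (y : G) (res (EN n) zz : Ao)
    have h3 : L ((y * res (EN n) zz * y⁻¹ * (res (EN n) zz)⁻¹ : Ao) : G) ≤
      2 * L y + 2 * L (res (EN n) zz : Ao) := h2
    omega
  obtain ⟨x1, x2, x3, x4, x5, hw⟩ := five w
  have h1 := key x1
  have h2 := key x2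
  have h3 := key x3
  have h4 := key x4
  have h5 := key x5
  rw [hw, map_mul, map_mul, map_mul, map_mul]
  have m1 := hL.mul (res (EN n) (x1 * zz * x1⁻¹ * zz⁻¹) * res (EN n) (x2 * zz * x2⁻¹ * zz⁻¹) *
    res (EN n) (x3 * zz * x3⁻¹ * zz⁻¹) * res (EN n) (x4 * zz * x4⁻¹ * zz⁻¹) : Ao)
    (res (EN n) (x5 * zz * x5⁻¹ * zz⁻¹) : Ao)
  have m2 := hL.mul (res (EN n) (x1 * zz * x1⁻¹ * zz⁻¹) * res (EN n) (x2 * zz * x2⁻¹ * zz⁻¹) *
    res (EN n) (x3 * zz * x3⁻¹ * zz⁻¹) : Ao) (res (EN n) (x4 * zz * x4⁻¹ * zz⁻¹) : Ao)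
  have m3 := hL.mul (res (EN n) (x1 * zz * x1⁻¹ * zz⁻¹) * res (EN n) (x2 * zz * x2⁻¹ * zz⁻¹) : Ao)
    (res (EN n) (x3 * zz * x3⁻¹ * zz⁻¹) : Ao)
  have m4 := hL.mul (res (EN n) (x1 * zz * x1⁻¹ * zz⁻¹) : Ao)
    (res (EN n) (x2 * zz * x2⁻¹ * zz⁻¹) : Ao)
  simp only [Subgroup.coe_mul] at m1 m2 m3 m4 ⊢
  omega

theorem tconj_surj (a : ℤ) (M : Set ℤ) (w : Ao) :
    res {j | j - a ∈ M} w = tconj a (res M (tconj (-a) w)) := by
  rw [tconj_res, tconj_tconj]

theorem bdd_Ao (hL : IsLen L) : ∃ C : ℕ, ∀ w : Ao, L w ≤ C := by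
  obtain ⟨n, C, h⟩ := bdd_EN hL
  have step : ∀ b : ℕ, ∃ C' : ℕ, ∀ w : Ao,
      L (res {j : ℤ | ∃ a : ℕ, a < b ∧ j - a ∈ EN n} w : Ao) ≤ C' := by
    intro b
    induction b with
    | zero =>
      refine ⟨0, fun w => ?_⟩
      have : {j : ℤ | ∃ a : ℕ, a < 0 ∧ j - a ∈ EN n} = ∅ := by
        ext j; simp
      rw [this, res_empty]
      exact hL.one.le
    | succ b ih =>
      obtain ⟨C', hC'⟩ := ih
      refine ⟨C' + (2 * L (t ^ (b : ℤ)) + C), fun w => ?_⟩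
      have : {j : ℤ | ∃ a : ℕ, a < b + 1 ∧ j - a ∈ EN n} =
          {j : ℤ | ∃ a : ℕ, a < b ∧ j - a ∈ EN n} ∪ {j : ℤ | j - (b : ℤ) ∈ EN n} := by
        ext j
        simp only [Set.mem_setOf_eq, Set.mem_union]
        constructor
        · rintro ⟨a, ha, ha'⟩
          rcases Nat.lt_succ_iff_lt_or_eq.1 ha with h1 | h1
          · exact Or.inl ⟨a, h1, ha'⟩
          · subst h1; exact Or.inr ha'
        · rintro (⟨a, ha, ha'⟩ | h1)
          · exact ⟨a, by omega, ha'⟩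
          · exact ⟨b, by omega, h1⟩
      rw [this, res_split, tconj_surj]
      have h1 := hC' w
      have h2 := hL.mul (res {j : ℤ | ∃ a : ℕ, a < b ∧ j - a ∈ EN n} w : Ao)
        (tconj b (res (EN n) (tconj (-b) (res {j : ℤ | ∃ a : ℕ, a < b ∧ j - a ∈ EN n}ᶜ w))) : Ao)
      have h3 := hL.conj (t ^ (b : ℤ))
        (res (EN n) (tconj (-b) (res {j : ℤ | ∃ a : ℕ, a < b ∧ j - a ∈ EN n}ᶜ w)) : Ao)
      have h4 := h (tconj (-b) (res {j : ℤ | ∃ a : ℕ, a < b ∧ j - a ∈ EN n}ᶜ w))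
      have h5 : L (tconj b (res (EN n) (tconj (-b)
          (res {j : ℤ | ∃ a : ℕ, a < b ∧ j - a ∈ EN n}ᶜ w))) : Ao) ≤ 2 * L (t ^ (b : ℤ)) + C :=
        h3.trans (by omega)
      simp only [Subgroup.coe_mul] at h2 ⊢
      omega
  obtain ⟨C', hC'⟩ := step (2 ^ (n + 1))
  refine ⟨C', fun w => ?_⟩
  have : {j : ℤ | ∃ a : ℕ, a < 2 ^ (n + 1) ∧ j - a ∈ EN n} = Set.univ := by
    ext j
    simp only [Set.mem_setOf_eq, Set.mem_univ, iff_true]
    have hq : (0 : ℤ) < 2 ^ (n + 1) := by positivity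
    have h1 := Int.emod_nonneg (j - 2 ^ n) hq.ne'
    have h2 := Int.emod_lt_of_pos (j - 2 ^ n) hq
    refine ⟨((j - 2 ^ n) % 2 ^ (n + 1)).toNat, ?_, ?_⟩
    · zify
      rw [Int.toNat_of_nonneg h1]
      exact h2
    · change (j - _) % 2 ^ (n + 1) = 2 ^ n
      rw [Int.toNat_of_nonneg h1]
      have h3 : j - (j - 2 ^ n) % 2 ^ (n + 1) =
          2 ^ n + 2 ^ (n + 1) * ((j - 2 ^ n) / 2 ^ (n + 1)) := by
        have := Int.emod_add_mul_ediv (j - 2 ^ n) (2 ^ (n + 1))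
        linarith
      rw [h3, Int.add_mul_emod_self_left]
      apply Int.emod_eq_of_lt (by positivity)
      exact pow_lt_pow_right₀ (by norm_num) (by omega)
  have h1 := hC' w
  rw [this, res_univ] at h1
  exact h1

/-! ### the stabilisers of the vertices on the line -/

/-- the stabiliser of the ball of level `l` around the base point -/
def St (l : ℤ) : Subgroup G where
  carrier := {g | kk g = 0 ∧ agree o (ap g o) l}
  one_mem' := ⟨rfl, agree_refl _ _⟩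
  mul_mem' := by
    rintro g h ⟨h1, h2⟩ ⟨h3, h4⟩
    refine ⟨by rw [kk_mul, h1, h3, add_zero], ?_⟩
    rw [ap_mul]
    exact h2.trans ((agree_iff_of_kk h1 _ _ _).2 h4)
  inv_mem' := by
    rintro g ⟨h1, h2⟩
    refine ⟨by rw [kk_inv, h1, neg_zero], ?_⟩
    have := (agree_iff_of_kk (w := g⁻¹) (by rw [kk_inv, h1, neg_zero]) _ _ _).2 h2
    rw [ap_inv_ap] at this
    exact this.symm

theorem Ao_le_St (l : ℤ) : Ao ≤ St l := fun g hg => ⟨hg.1, by rw [hg.2]; exact agree_refl _ _⟩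

theorem St.agree_iff {l : ℤ} {g : G} (hg : g ∈ St l) (x : Om) :
    agree o (ap g x) l ↔ agree o x l :=
  ⟨fun h => (agree_iff_of_kk hg.1 _ _ _).1 (hg.2.symm.trans h),
    fun h => hg.2.trans ((agree_iff_of_kk hg.1 _ _ _).2 h)⟩

open Classical in
/-- restriction to a ball -/
noncomputable def cutF (l : ℤ) (a : G) (x : Om) : Om := if agree o x l then ap a x else x

theorem cutF_pos {l : ℤ} {a : G} {x : Om} (h : agree o x l) : cutF l a x = ap a x := if_pos h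
theorem cutF_neg {l : ℤ} {a : G} {x : Om} (h : ¬ agree o x l) : cutF l a x = x := if_neg h

theorem cutF_cutF {l : ℤ} {a : G} (ha : a ∈ St l) (x : Om) : cutF l a⁻¹ (cutF l a x) = x := by
  by_cases h : agree o x l
  · rw [cutF_pos h, cutF_pos ((St.agree_iff ha x).2 h), ap_inv_ap]
  · rw [cutF_neg h, cutF_neg h]

theorem loc_cutF {l : ℤ} {a : G} (ha : a ∈ St l) : Loc (cutF l a) 0 := by
  intro x i
  by_cases hi : l ≤ i
  · by_cases h : agree o x l
    · obtain ⟨p, hp, hp'⟩ := loc a x i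
      refine ⟨p, hp, fun y hy => ?_⟩
      have := hp' y hy
      rw [ha.1] at this
      rw [cutF_pos (h.trans (hy.mono hi)), this]
    · refine ⟨1, P0.one_mem, fun y hy => ?_⟩
      rw [cutF_neg (fun h' => h (h'.trans (hy.mono hi).symm)), add_zero]
      rfl
  · refine ⟨1, P0.one_mem, fun y hy => ?_⟩
    rw [add_zero, Equiv.Perm.one_apply]
    by_cases h : agree o y l
    · rw [cutF_pos h]
      have h1 := (St.agree_iff ha y).2 h
      rw [← h i (by omega), ← h1 i (by omega)]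
    · rw [cutF_neg h]

/-- restriction to a ball, as an element of the group -/
noncomputable def cut (l : ℤ) (a : G) (ha : a ∈ St l) : G :=
  mkG (cutF l a) (cutF l a⁻¹) 0 (cutF_cutF ha)
    (fun x => by simpa using cutF_cutF ((St l).inv_mem ha) x) (loc_cutF ha)
    (by simpa using loc_cutF ((St l).inv_mem ha))

theorem kk_cut (l : ℤ) (a : G) (ha : a ∈ St l) : kk (cut l a ha) = 0 := rfl
theorem ap_cut_pos {l : ℤ} {a : G} (ha : a ∈ St l) {x : Om} (h : agree o x l) :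
    ap (cut l a ha) x = ap a x := cutF_pos h
theorem ap_cut_neg {l : ℤ} {a : G} (ha : a ∈ St l) {x : Om} (h : ¬ agree o x l) :
    ap (cut l a ha) x = x := cutF_neg h

theorem cut_inv_mul {l : ℤ} {a : G} (ha : a ∈ St l) : (cut l a ha)⁻¹ * a ∈ Ao := by
  refine ⟨by rw [kk_mul, kk_inv, kk_cut, ha.1]; rfl, ?_⟩
  rw [ap_mul, ← ap_cut_pos ha (agree_refl o l), ap_inv_ap]

/-- every length function is bounded on `St 0` -/
theorem bdd_St (hL : IsLen L) : ∃ C : ℕ, ∀ w ∈ St 0, L w ≤ C := by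
  obtain ⟨C, hC⟩ := bdd_Ao hL
  refine ⟨(2 * L (tr (single (-1) (1, 0))) + C) + C, fun w hw => ?_⟩
  have h1 : L ((cut 0 w hw)⁻¹ * w) ≤ C := hC ⟨_, cut_inv_mul hw⟩
  have h2 : tr (single (-1) (1, 0)) * cut 0 w hw * (tr (single (-1) (1, 0)))⁻¹ ∈ Ao := by
    refine ⟨by simp [kk_cut], ?_⟩
    have h3 : ¬ agree o (ap (tr (single (-1) (1, 0)))⁻¹ o) 0 := by
      intro h
      have h4 := h (-1) (by norm_num)
      have h5 := ap_tr (single (-1) (1, 0)) (ap (tr (single (-1) (1, 0)))⁻¹ o) (-1)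
      rw [ap_ap_inv, ← h4, o_apply, single_apply, if_pos rfl, zero_add] at h5
      exact absurd (congrArg Prod.fst h5) (by norm_num)
    rw [ap_mul, ap_mul, ap_cut_neg hw h3, ap_ap_inv]
  have h3 : L (tr (single (-1) (1, 0)) * cut 0 w hw * (tr (single (-1) (1, 0)))⁻¹) ≤ C := hC ⟨_, h2⟩
  have h4 : cut 0 w hw = (tr (single (-1) (1, 0)))⁻¹ *
      (tr (single (-1) (1, 0)) * cut 0 w hw * (tr (single (-1) (1, 0)))⁻¹) *
      ((tr (single (-1) (1, 0)))⁻¹)⁻¹ := by group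
  have h5 := hL.conj (tr (single (-1) (1, 0)))⁻¹
    (tr (single (-1) (1, 0)) * cut 0 w hw * (tr (single (-1) (1, 0)))⁻¹)
  rw [← h4, hL.inv] at h5
  have h6 := hL.mul (cut 0 w hw) ((cut 0 w hw)⁻¹ * w)
  rw [mul_inv_cancel_left] at h6
  omega

end Pool.Agent.H828_QP
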