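import Mathlib

set_option autoImplicit false

open Pointwise

namespace Pool.Agent.H828_QP

section ln

variable {H : Type*} [Group H]

/-- word length -/
noncomputable def ln (S : Set H) (g : H) : ℕ := sInf {n : ℕ | g ∈ (S ∪ S⁻¹) ^ n}

theorem ln_le {S : Set H} {g : H} {n : ℕ} (h : g ∈ (S ∪ S⁻¹) ^ n) : ln S g ≤ n := Nat.sInf_le h

theorem ln_one (S : Set H) : ln S 1 = 0 := Nat.le_zero.1 (ln_le (by simp))

theorem exists_pow {S : Set H} (hS : Subgroup.closure S = ⊤) (g : H) :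
    ∃ n : ℕ, g ∈ (S ∪ S⁻¹) ^ n := by
  have hg : g ∈ Subgroup.closure S := by rw [hS]; trivial
  induction hg using Subgroup.closure_induction with
  | mem x hx => exact ⟨1, by rw [pow_one]; exact Or.inl hx⟩
  | one => exact ⟨0, by simp⟩
  | mul x y _ _ hx hy =>
    obtain ⟨n, hn⟩ := hx
    obtain ⟨m, hm⟩ := hy
    exact ⟨n + m, by rw [pow_add]; exact Set.mul_mem_mul hn hm⟩
  | inv x _ hx =>
    obtain ⟨n, hn⟩ := hx
    refine ⟨n, ?_⟩
    have : (S ∪ S⁻¹)⁻¹ = S ∪ S⁻¹ := by rw [Set.union_inv, inv_inv, Set.union_comm]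
    rw [← this, inv_pow, Set.mem_inv, inv_inv]
    exact hn

theorem ln_spec {S : Set H} (hS : Subgroup.closure S = ⊤) (g : H) :
    g ∈ (S ∪ S⁻¹) ^ (ln S g) := Nat.sInf_mem (exists_pow hS g)

theorem ln_mul {S : Set H} (hS : Subgroup.closure S = ⊤) (g h : H) :
    ln S (g * h) ≤ ln S g + ln S h := by
  apply ln_le
  rw [pow_add]
  exact Set.mul_mem_mul (ln_spec hS g) (ln_spec hS h)

theorem ln_inv (S : Set H) (g : H) : ln S g⁻¹ = ln S g := by
  have : (S ∪ S⁻¹)⁻¹ = S ∪ S⁻¹ := by rw [Set.union_inv, inv_inv, Set.union_comm]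
  unfold ln
  congr 1
  ext n
  simp only [Set.mem_setOf_eq]
  rw [← Set.mem_inv, ← inv_pow, this]

theorem ln_mem {S : Set H} {g : H} (h : g ∈ S) : ln S g ≤ 1 :=
  ln_le (by rw [pow_one]; exact Or.inl h)

theorem ln_pow {S : Set H} (hS : Subgroup.closure S = ⊤) (g : H) (n : ℕ) :
    ln S (g ^ n) ≤ n * ln S g := by
  induction n with
  | zero => simp [ln_one]
  | succ n ih =>
    rw [pow_succ]
    have := ln_mul hS (g ^ n) g
    nlinarith

theorem ln_lower {S : Set H} (hS : Subgroup.closure S = ⊤) (D : H → ℤ) (h1 : D 1 ≤ 0)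
    (h2 : ∀ g x, x ∈ S ∪ S⁻¹ → D (g * x) ≤ D g + 1) (g : H) : D g ≤ ln S g := by
  have key : ∀ n : ℕ, ∀ g ∈ (S ∪ S⁻¹) ^ n, D g ≤ n := by
    intro n
    induction n with
    | zero =>
      intro g hg
      rw [pow_zero, Set.mem_one] at hg
      subst hg; simpa using h1
    | succ n ih =>
      intro g hg
      rw [pow_succ] at hg
      obtain ⟨a, ha, b, hb, rfl⟩ := Set.mem_mul.1 hg
      have := h2 a b hb
      have := ih a ha
      push_cast
      linarith
  exact key _ g (ln_spec hS g)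

end ln

/-- the key estimate for one loxodromic element, in terms of the function `n ↦ length of gⁿ` -/
theorem seq_key (a : ℤ → ℝ) (h0 : a 0 = 0) (hneg : ∀ n, a (-n) = a n)
    (hsub : ∀ n m, a (n + m) ≤ a n + a m) (δ : ℝ)
    (hyp : ∀ i j k : ℤ, min ((a i + a j - a (j - i)) / 2) ((a j + a k - a (k - j)) / 2) - δ ≤
      (a i + a k - a (k - i)) / 2) (c : ℝ) (hc : 0 < c) (hlin : ∀ n : ℕ, c * n ≤ a n) :
    ∀ K : ℝ, ∃ N : ℕ, ∀ n m : ℕ, N ≤ n → N ≤ m → K ≤ (a n + a m - a (m - n)) / 2 := by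
  have hδ : 0 ≤ δ := by
    have := hyp 0 0 0
    simp [h0] at this
    exact this
  have hnn : ∀ n : ℤ, 0 ≤ a n := by
    intro n
    have := hsub n (-n)
    rw [add_neg_cancel, h0, hneg] at this
    linarith
  -- a doubling step with a large gain
  obtain ⟨p, hp1, hp⟩ : ∃ p : ℕ, 1 ≤ p ∧ a p + (4 * δ + 1) < a (2 * p) := by
    by_contra hcon
    push Not at hcon
    have h1 : ∀ j : ℕ, a ((2 ^ j : ℕ) : ℤ) ≤ a 1 + j * (4 * δ + 1) := by
      intro j
      induction j with
      | zero => simp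
      | succ j ih =>
        have := hcon (2 ^ j) Nat.one_le_two_pow
        have h2 : (((2 : ℕ) ^ (j + 1) : ℕ) : ℤ) = 2 * (((2 : ℕ) ^ j : ℕ) : ℤ) := by
          push_cast; ring
        rw [h2]
        push_cast at this ih ⊢
        linarith
    have h2 : ∀ j : ℕ, c * 2 ^ j ≤ a 1 + j * (4 * δ + 1) := by
      intro j
      have := hlin (2 ^ j)
      have h3 := h1 j
      push_cast at this h3
      linarith
    -- exponential beats linear
    have h3 : Filter.Tendsto (fun j : ℕ => (j : ℝ) ^ 1 / 2 ^ j) Filter.atTop (nhds 0) :=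
      tendsto_pow_const_div_const_pow_of_one_lt 1 (by norm_num)
    have h4 : Filter.Tendsto (fun j : ℕ => (1 : ℝ) / 2 ^ j) Filter.atTop (nhds 0) := by
      have := tendsto_pow_const_div_const_pow_of_one_lt 0 (r := (2 : ℝ)) (by norm_num)
      simpa using this
    have h5 : Filter.Tendsto (fun j : ℕ => a 1 * ((1 : ℝ) / 2 ^ j) +
        (4 * δ + 1) * ((j : ℝ) ^ 1 / 2 ^ j)) Filter.atTop (nhds (a 1 * 0 + (4 * δ + 1) * 0)) :=
      (h4.const_mul _).add (h3.const_mul _)
    rw [mul_zero, mul_zero, add_zero] at h5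
    obtain ⟨j, hj⟩ := ((tendsto_order.1 h5).2 c hc).exists
    have h6 := h2 j
    have h7 : (0 : ℝ) < 2 ^ j := by positivity
    have h8 : a 1 * (1 / 2 ^ j) + (4 * δ + 1) * ((j : ℝ) ^ 1 / 2 ^ j) =
        (a 1 + j * (4 * δ + 1)) / 2 ^ j := by
      field_simp
    rw [h8, div_lt_iff₀ h7] at hj
    linarith
  -- the multiples of `p`
  have hb2 : a p + (4 * δ + 1) < a (2 * p) := hp
  have claim1 : ∀ k : ℕ, 1 ≤ k →
      (a p + a (k * p) - a ((k + 1) * p)) / 2 ≤ (a p - (4 * δ + 1)) / 2 + δ := by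
    intro k hk
    induction k, hk using Nat.le_induction with
    | base =>
      have : (((1 : ℕ) : ℤ) + 1) * (p : ℤ) = 2 * p := by push_cast; ring
      rw [this]
      simp only [Nat.cast_one, one_mul]
      linarith
    | succ k hk ih =>
      have h := hyp (-p) p ((k + 1 : ℕ) * p)
      rw [hneg, show (p : ℤ) - -(p : ℤ) = 2 * p by ring,
        show ((k + 1 : ℕ) : ℤ) * p - p = k * p by push_cast; ring,
        show ((k + 1 : ℕ) : ℤ) * (p : ℤ) - -(p : ℤ) = ((k + 1 : ℕ) + 1) * p by push_cast; ring] at h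
      by_contra hcon
      push Not at hcon
      -- use the hypothesis with the points -p, (k+1) p, p
      have h' := hyp (-p) ((k + 1 : ℕ) * p) p
      rw [hneg, show ((k + 1 : ℕ) : ℤ) * (p : ℤ) - -(p : ℤ) = ((k + 1 : ℕ) + 1) * p by
          push_cast; ring,
        show (p : ℤ) - ((k + 1 : ℕ) : ℤ) * (p : ℤ) = -(k * p) by push_cast; ring, hneg,
        show (p : ℤ) - -(p : ℤ) = 2 * p by ring] at h'
      push_cast at h' ih hcon ⊢
      have h5 : (a (((k : ℤ) + 1) * p) + a p - a (k * p)) / 2 ≥ (a p + (4 * δ + 1) - 2 * δ) / 2 := by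
        linarith
      rcases min_le_iff.1 (le_refl (min ((a p + a (((k : ℤ) + 1) * p) -
        a (((k : ℤ) + 1 + 1) * p)) / 2) ((a (((k : ℤ) + 1) * p) + a p - a (k * p)) / 2))) with h6 | h6
      · rw [min_eq_left] at h'
        · linarith
        · exact le_trans h6 (min_le_right _ _)
      · rw [min_eq_right] at h'
        · linarith
        · exact le_trans h6 (min_le_left _ _)
  have gain : ∀ k : ℕ, a (k * p) + (2 * δ + 1) ≤ a ((k + 1) * p) := by
    intro k
    rcases Nat.eq_zero_or_pos k with rfl | hk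
    · simp only [Nat.cast_zero, zero_mul, zero_add, one_mul, h0]
      have h1 := hsub p p
      rw [show (p : ℤ) + p = 2 * p by ring] at h1
      linarith
    · have := claim1 k hk
      linarith
  have claim2 : ∀ n k : ℕ, 1 ≤ n → 1 ≤ k →
      (a (n * p) + a (k * p) - a ((n + k) * p)) / 2 ≤ (a p - (4 * δ + 1)) / 2 + 2 * δ := by
    intro n k hn hk
    rcases Nat.lt_or_ge 1 n with hn1 | hn1
    · obtain ⟨n', rfl⟩ : ∃ n', n = n' + 1 := ⟨n - 1, by omega⟩
      have hn' : 1 ≤ n' := by omega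
      have h := hyp (-p) (-((n' + 1 : ℕ) * p)) (k * p)
      rw [hneg, hneg, show -(((n' + 1 : ℕ) : ℤ) * (p : ℤ)) - -(p : ℤ) = -(n' * p) by
          push_cast; ring, hneg,
        show (k : ℤ) * (p : ℤ) - -(((n' + 1 : ℕ) : ℤ) * (p : ℤ)) = ((n' + 1 : ℕ) + k) * p by
          push_cast; ring,
        show (k : ℤ) * (p : ℤ) - -(p : ℤ) = (k + 1) * p by ring] at h
      have h1 := claim1 k hk
      have h2 := gain n'
      push_cast at h h1 h2 ⊢
      rcases le_total ((a p + a (((n' : ℤ) + 1) * p) - a (n' * p)) / 2)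
        ((a (((n' : ℤ) + 1) * p) + a (k * p) - a (((n' : ℤ) + 1 + k) * p)) / 2) with h3 | h3
      · rw [min_eq_left h3] at h
        linarith
      · rw [min_eq_right h3] at h
        linarith
    · have hn2 : n = 1 := by omega
      subst hn2
      have h1 := claim1 k hk
      rw [show (((1 : ℕ) : ℤ) + k) * (p : ℤ) = (k + 1) * p by push_cast; ring]
      simp only [Nat.cast_one, one_mul]
      linarith
  have low : ∀ n m : ℕ, n ≤ m → a (n * p) - |(a p - (4 * δ + 1)) / 2 + 2 * δ| ≤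
      (a (n * p) + a (m * p) - a ((m - n) * p)) / 2 := by
    intro n m hnm
    have habs := le_abs_self ((a p - (4 * δ + 1)) / 2 + 2 * δ)
    have habs' := abs_nonneg ((a p - (4 * δ + 1)) / 2 + 2 * δ)
    rcases Nat.eq_zero_or_pos n with rfl | hn
    · simp only [Nat.cast_zero, zero_mul, h0, sub_zero, zero_add, sub_self, zero_div, zero_sub]
      linarith
    · rcases Nat.eq_or_lt_of_le hnm with rfl | hlt
      · simp only [sub_self, zero_mul, h0]
        linarith
      · obtain ⟨k, rfl⟩ := Nat.exists_eq_add_of_lt hlt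
        have h1 := claim2 n (k + 1) hn (by omega)
        rw [show ((n + k + 1 : ℕ) : ℤ) - (n : ℤ) = ((k + 1 : ℕ) : ℤ) by push_cast; ring]
        rw [show (n : ℤ) + ((k + 1 : ℕ) : ℤ) = ((n + k + 1 : ℕ) : ℤ) by push_cast; ring] at h1
        linarith
  -- pass to all the integers
  have hR : ∀ r : ℕ, a r ≤ r * a 1 := by
    intro r
    induction r with
    | zero => simp [h0]
    | succ r ih =>
      have := hsub r 1
      push_cast
      linarith
  have hR' : ∀ n : ℕ, |a n - a ((n / p : ℕ) * p)| ≤ p * a 1 := by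
    intro n
    have h1 : (n : ℤ) = (n / p : ℕ) * p + (n % p : ℕ) := by
      have := Nat.div_add_mod n p
      zify at this
      push_cast
      linarith
    have h2 := hsub ((n / p : ℕ) * p) (n % p : ℕ)
    rw [← h1] at h2
    have h3 := hsub n (-(n % p : ℕ))
    rw [hneg, show (n : ℤ) + -((n % p : ℕ) : ℤ) = (n / p : ℕ) * p by omega] at h3
    have h4 := hR (n % p)
    have h5 : ((n % p : ℕ) : ℝ) ≤ p := by exact_mod_cast (Nat.mod_lt n hp1).le
    have h6 : ((n % p : ℕ) : ℝ) * a 1 ≤ p * a 1 := mul_le_mul_of_nonneg_right h5 (hnn 1)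
    rw [abs_le]
    constructor <;> linarith
  have symm_low : ∀ n m : ℕ, a ((min n m : ℕ) * p) - |(a p - (4 * δ + 1)) / 2 + 2 * δ| ≤
      (a (n * p) + a (m * p) - a ((m - n) * p)) / 2 := by
    intro n m
    rcases le_total n m with h | h
    · rw [min_eq_left h]; exact low n m h
    · rw [min_eq_right h]
      have := low m n h
      rw [← hneg ((m - n) * p), show -(((m : ℤ) - n) * p) = ((n : ℤ) - m) * p by ring]
      linarith
  intro K
  obtain ⟨M, hM⟩ := exists_nat_gt
    ((K + |(a p - (4 * δ + 1)) / 2 + 2 * δ| + 2 * (p * a 1)) / c)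
  refine ⟨M * p + p, fun n m hn hm => ?_⟩
  have h1 := symm_low (n / p) (m / p)
  have hn' : M ≤ n / p := (Nat.le_div_iff_mul_le hp1).2 (by omega)
  have hm' : M ≤ m / p := (Nat.le_div_iff_mul_le hp1).2 (by omega)
  have h2 : (M : ℝ) ≤ ((min (n / p) (m / p) : ℕ) : ℝ) := by exact_mod_cast le_min hn' hm'
  have h3 := hlin (min (n / p) (m / p) * p)
  have h4 : c * M ≤ a (((min (n / p) (m / p) : ℕ) : ℤ) * p) := by
    refine le_trans ?_ (le_trans h3 (le_of_eq ?_))
    · apply mul_le_mul_of_nonneg_left _ hc.le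
      push_cast
      have h5 : (1 : ℝ) ≤ p := by exact_mod_cast hp1
      have h6 : (M : ℝ) ≤ min ((n / p : ℕ) : ℝ) ((m / p : ℕ) : ℝ) := by
        push_cast at h2; exact h2
      calc (M : ℝ) = M * 1 := by ring
        _ ≤ _ := mul_le_mul h6 h5 (by norm_num) (le_trans (Nat.cast_nonneg M) h6)
    · push_cast; rfl
  have h5 : (K + |(a p - (4 * δ + 1)) / 2 + 2 * δ| + 2 * (p * a 1)) < c * M := by
    rw [div_lt_iff₀ hc] at hM; linarith
  have h6 := abs_le.1 (hR' n)
  have h7 := abs_le.1 (hR' m)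
  -- the difference
  have h8 : a ((m : ℤ) - n) ≤ a ((((m / p : ℕ) : ℤ) - ((n / p : ℕ) : ℤ)) * p) + 2 * (p * a 1) := by
    have e1 : (n : ℤ) = (n / p : ℕ) * p + (n % p : ℕ) := by
      have := Nat.div_add_mod n p
      zify at this
      push_cast
      linarith
    have e2 : (m : ℤ) = (m / p : ℕ) * p + (m % p : ℕ) := by
      have := Nat.div_add_mod m p
      zify at this
      push_cast
      linarith
    have e3 : (m : ℤ) - n = (((m / p : ℕ) : ℤ) - ((n / p : ℕ) : ℤ)) * p +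
        ((m % p : ℕ) + -((n % p : ℕ) : ℤ)) := by
      rw [sub_mul]; omega
    rw [e3]
    have i1 := hsub ((((m / p : ℕ) : ℤ) - ((n / p : ℕ) : ℤ)) * p) ((m % p : ℕ) + -((n % p : ℕ) : ℤ))
    have i2 := hsub (m % p : ℕ) (-((n % p : ℕ) : ℤ))
    rw [hneg] at i2
    have i3 := hR (n % p)
    have i4 : ((n % p : ℕ) : ℝ) ≤ p := by exact_mod_cast (Nat.mod_lt n hp1).le
    have i5 : ((n % p : ℕ) : ℝ) * a 1 ≤ p * a 1 := mul_le_mul_of_nonneg_right i4 (hnn 1)
    have i6 := hR (m % p)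
    have i7 : ((m % p : ℕ) : ℝ) ≤ p := by exact_mod_cast (Nat.mod_lt m hp1).le
    have i8 : ((m % p : ℕ) : ℝ) * a 1 ≤ p * a 1 := mul_le_mul_of_nonneg_right i7 (hnn 1)
    linarith
  linarith

end Pool.Agent.H828_QP
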