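import Pool.Agent.H828_QP.Bdd
import Pool.Agent.H828_QP.Len

set_option autoImplicit false

open Pointwise

namespace Pool.Agent.H828_QP

theorem exists_MM (a b : G) : ∃ m : ℤ, (m ≤ kk a ∧ m ≤ kk b ∧ agree (ap a o) (ap b o) m) ∧
    ∀ l, (l ≤ kk a ∧ l ≤ kk b ∧ agree (ap a o) (ap b o) l) → l ≤ m := by
  apply Int.exists_greatest_of_bdd
  · exact ⟨kk a, fun z hz => hz.1⟩
  · obtain ⟨i, -, hi⟩ := exists_agree (ap a o) (ap b o)
    exact ⟨min i (min (kk a) (kk b)), by omega, by omega, hi.mono (by omega)⟩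

/-- the level of the meet of two vertices -/
noncomputable def MM (a b : G) : ℤ := (exists_MM a b).choose

theorem MM_left (a b : G) : MM a b ≤ kk a := (exists_MM a b).choose_spec.1.1
theorem MM_right (a b : G) : MM a b ≤ kk b := (exists_MM a b).choose_spec.1.2.1
theorem MM_agree (a b : G) : agree (ap a o) (ap b o) (MM a b) := (exists_MM a b).choose_spec.1.2.2
theorem le_MM {a b : G} {l : ℤ} (h1 : l ≤ kk a) (h2 : l ≤ kk b)
    (h3 : agree (ap a o) (ap b o) l) : l ≤ MM a b := (exists_MM a b).choose_spec.2 l ⟨h1, h2, h3⟩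

theorem MM_comm (a b : G) : MM a b = MM b a :=
  le_antisymm (le_MM (MM_right a b) (MM_left a b) (MM_agree a b).symm)
    (le_MM (MM_right b a) (MM_left b a) (MM_agree b a).symm)

theorem MM_self (a : G) : MM a a = kk a :=
  le_antisymm (MM_left a a) (le_MM le_rfl le_rfl (agree_refl _ _))

theorem MM_ultra (a b c : G) : min (MM a b) (MM b c) ≤ MM a c := by
  apply le_MM
  · exact (min_le_left _ _).trans (MM_left a b)
  · exact (min_le_right _ _).trans (MM_right b c)
  · exact ((MM_agree a b).mono (min_le_left _ _)).trans ((MM_agree b c).mono (min_le_right _ _))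

theorem MM_mul_left_le (g a b : G) : MM a b + kk g ≤ MM (g * a) (g * b) := by
  apply le_MM
  · rw [kk_mul]; have := MM_left a b; omega
  · rw [kk_mul]; have := MM_right a b; omega
  · rw [ap_mul, ap_mul, agree_iff]; exact MM_agree a b

theorem MM_mul_left (g a b : G) : MM (g * a) (g * b) = MM a b + kk g := by
  apply le_antisymm _ (MM_mul_left_le g a b)
  have := MM_mul_left_le g⁻¹ (g * a) (g * b)
  rw [inv_mul_cancel_left, inv_mul_cancel_left, kk_inv] at this
  omega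

/-- the distance in the tree -/
noncomputable def DD (a b : G) : ℤ := kk a + kk b - 2 * MM a b

theorem DD_mul_left (g a b : G) : DD (g * a) (g * b) = DD a b := by
  unfold DD
  rw [MM_mul_left, kk_mul, kk_mul]
  ring

theorem DD_tri (a b c : G) : DD a c ≤ DD a b + DD b c := by
  unfold DD
  have h1 := MM_ultra a b c
  have h2 := MM_right a b
  have h3 := MM_left b c
  omega

/-- the generating set -/
def XX : Set G := {g | g ∈ St 0} ∪ {t}

theorem DD_one_le {x : G} (hx : x ∈ XX ∪ XX⁻¹) : DD 1 x ≤ 1 := by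
  have h1 : ∀ y ∈ XX, DD 1 y ≤ 1 := by
    rintro y (hy | hy)
    · have : MM 1 y = 0 := by
        apply le_antisymm (MM_left 1 y)
        exact le_MM (l := 0) (by rw [kk_one]) (by rw [hy.1]) hy.2
      unfold DD
      rw [this, hy.1]; simp
    · rw [Set.mem_singleton_iff] at hy
      subst hy
      have : MM 1 t = 0 := by
        apply le_antisymm (MM_left 1 t)
        exact le_MM (l := 0) (by rw [kk_one]) (by simp) (by rw [ap_t_o]; exact agree_refl _ _)
      unfold DD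
      rw [this]; simp
  rcases hx with hx | hx
  · exact h1 x hx
  · have h2 := h1 _ (Set.mem_inv.1 hx)
    have h3 := DD_mul_left x 1 x⁻¹
    rw [mul_one, mul_inv_cancel] at h3
    have h4 : DD x 1 = DD 1 x := by unfold DD; rw [MM_comm]; ring
    rw [← h4, h3]
    exact h2

theorem closure_XX : Subgroup.closure XX = ⊤ := by
  rw [eq_top_iff]
  intro g _
  obtain ⟨i, hi, hi'⟩ := exists_agree o (ap g o)
  have ht : t ∈ Subgroup.closure XX := Subgroup.subset_closure (Or.inr rfl)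
  have h1 : t ^ (-i) * g * t ^ (i - kk g) ∈ St 0 := by
    refine ⟨by simp, ?_⟩
    rw [ap_mul, ap_mul, ap_tzpow_o]
    intro j hj
    rw [ap_tzpow]
    exact hi' (j - -i) (by omega)
  have h2 : g = t ^ i * (t ^ (-i) * g * t ^ (i - kk g)) * t ^ (kk g - i) := by
    have : t ^ (kk g - i) = (t ^ (i - kk g))⁻¹ := by rw [← zpow_neg]; congr 1; ring
    rw [this, zpow_neg]; group
  rw [h2]
  exact mul_mem (mul_mem (zpow_mem ht _) (Subgroup.subset_closure (Or.inl h1))) (zpow_mem ht _)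

theorem ln_t_zpow {Y : Set G} (hY : Subgroup.closure Y = ⊤) (n : ℤ) :
    ln Y (t ^ n) ≤ n.natAbs * ln Y t := by
  rcases Int.natAbs_eq n with h | h
  · conv_lhs => rw [h]
    rw [zpow_natCast]
    exact ln_pow hY t _
  · conv_lhs => rw [h]
    rw [zpow_neg, ln_inv, zpow_natCast]
    exact ln_pow hY t _

/-- upper bound for the word length -/
theorem ln_XX_le {g : G} {l : ℤ} (h1 : agree o (ap g o) l) :
    ln XX g ≤ l.natAbs + 1 + (kk g - l).natAbs := by
  have h1 : t ^ (-l) * g * t ^ (l - kk g) ∈ St 0 := by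
    refine ⟨by simp, ?_⟩
    rw [ap_mul, ap_mul, ap_tzpow_o]
    intro j hj
    rw [ap_tzpow]
    exact h1 (j - -l) (by omega)
  have h2 : g = t ^ l * (t ^ (-l) * g * t ^ (l - kk g)) * t ^ (kk g - l) := by
    have : t ^ (kk g - l) = (t ^ (l - kk g))⁻¹ := by rw [← zpow_neg]; congr 1; ring
    rw [this, zpow_neg]; group
  have h3 := ln_mul closure_XX (t ^ l * (t ^ (-l) * g * t ^ (l - kk g))) (t ^ (kk g - l))
  rw [← h2] at h3
  have h4 := ln_mul closure_XX (t ^ l) (t ^ (-l) * g * t ^ (l - kk g))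
  have h5 : ln XX (t ^ (-l) * g * t ^ (l - kk g)) ≤ 1 := ln_mem (Or.inl h1)
  have h6 := ln_t_zpow closure_XX l
  have h7 := ln_t_zpow closure_XX (kk g - l)
  have h8 : ln XX t ≤ 1 := ln_mem (Or.inr rfl)
  have h9 : l.natAbs * ln XX t ≤ l.natAbs := by
    calc _ ≤ l.natAbs * 1 := Nat.mul_le_mul_left _ h8
      _ = _ := mul_one _
  have h10 : (kk g - l).natAbs * ln XX t ≤ (kk g - l).natAbs := by
    calc _ ≤ (kk g - l).natAbs * 1 := Nat.mul_le_mul_left _ h8
      _ = _ := mul_one _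
  omega

theorem ln_XX_upper (g : G) : (ln XX g : ℤ) ≤ DD 1 g + 1 := by
  have h := ln_XX_le (MM_agree 1 g)
  have h1 := MM_left 1 g
  have h2 := MM_right 1 g
  rw [kk_one] at h1
  unfold DD
  rw [kk_one]
  omega

theorem ln_XX_lower (g : G) : DD 1 g ≤ ln XX g := by
  apply ln_lower closure_XX (fun g => DD 1 g)
  · change DD 1 1 ≤ 0
    unfold DD; rw [MM_self]; simp
  · intro g x hx
    have h1 := DD_tri 1 g (g * x)
    have h2 := DD_mul_left g 1 x
    rw [mul_one] at h2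
    have h3 := DD_one_le hx
    change DD 1 (g * x) ≤ DD 1 g + 1
    omega

/-- the Gromov product in the tree -/
noncomputable def gD (a b : G) : ℤ := MM a b - MM 1 a - MM 1 b

theorem gD_four (x y z : G) : min (gD x y) (gD y z) ≤ gD x z := by
  unfold gD
  have h1 := MM_ultra x y z
  have h2 := MM_ultra 1 x y
  have h3 := MM_ultra 1 y z
  have h4 := MM_ultra 1 x z
  have h5 := MM_ultra 1 y x
  have h6 := MM_ultra 1 z y
  have h7 := MM_ultra 1 z x
  have h8 := MM_ultra x 1 y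
  have h9 := MM_ultra y 1 z
  have h10 := MM_ultra x 1 z
  have h11 := MM_ultra x z y
  have h12 := MM_ultra y x z
  have e1 := MM_comm x 1
  have e2 := MM_comm y 1
  have e3 := MM_comm z y
  have e4 := MM_comm y x
  have e5 := MM_comm z x
  omega

/-- the Gromov product for the word length -/
noncomputable def gX (a b : G) : ℝ := ((ln XX a : ℝ) + (ln XX b : ℝ) - (ln XX (a⁻¹ * b) : ℝ)) / 2

theorem DD_inv_mul (a b : G) : DD 1 (a⁻¹ * b) = DD a b := by
  have := DD_mul_left a 1 (a⁻¹ * b)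
  rw [mul_one, mul_inv_cancel_left] at this
  exact this.symm

theorem gX_upper (a b : G) : gX a b ≤ gD a b + 1 := by
  unfold gX
  have h1 := ln_XX_upper a
  have h2 := ln_XX_upper b
  have h3 := ln_XX_lower (a⁻¹ * b)
  rw [DD_inv_mul] at h3
  have h4 : ((ln XX a : ℤ) + ln XX b - ln XX (a⁻¹ * b)) ≤ 2 * gD a b + 2 := by
    unfold gD
    unfold DD at h1 h2 h3
    rw [kk_one] at h1 h2
    omega
  have h5 : ((ln XX a : ℝ) + ln XX b - ln XX (a⁻¹ * b)) ≤ 2 * gD a b + 2 := by exact_mod_cast h4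
  linarith

theorem gX_lower (a b : G) : (gD a b : ℝ) - 1 / 2 ≤ gX a b := by
  unfold gX
  have h1 := ln_XX_lower a
  have h2 := ln_XX_lower b
  have h3 := ln_XX_upper (a⁻¹ * b)
  rw [DD_inv_mul] at h3
  have h4 : 2 * gD a b - 1 ≤ ((ln XX a : ℤ) + ln XX b - ln XX (a⁻¹ * b)) := by
    unfold gD
    unfold DD at h1 h2 h3
    rw [kk_one] at h1 h2
    omega
  have h5 : 2 * (gD a b : ℝ) - 1 ≤ ((ln XX a : ℝ) + ln XX b - ln XX (a⁻¹ * b)) := by
    exact_mod_cast h4
  linarith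

theorem gX_hyp (x y z : G) : min (gX x y) (gX y z) - 3 / 2 ≤ gX x z := by
  have h1 := gX_upper x y
  have h2 := gX_upper y z
  have h3 := gX_lower x z
  have h4 : (min (gD x y) (gD y z) : ℤ) ≤ gD x z := gD_four x y z
  rcases min_le_iff.1 h4 with h5 | h5
  · have h6 : (gD x y : ℝ) ≤ gD x z := by exact_mod_cast h5
    have := min_le_left (gX x y) (gX y z)
    linarith
  · have h6 : (gD y z : ℝ) ≤ gD x z := by exact_mod_cast h5
    have := min_le_right (gX x y) (gX y z)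
    linarith

/-- linear growth of the powers -/
def loxX (g : G) : Prop := ∃ c : ℝ, 0 < c ∧ ∀ n : ℕ, c * (n : ℝ) ≤ (ln XX (g ^ n) : ℝ)

/-- same end -/
def endX (a b : G) : Prop := ∀ K : ℝ, ∃ N : ℕ, ∀ n m : ℕ, N ≤ n → N ≤ m → K ≤ gX (a ^ n) (b ^ m)

theorem lox_kk {g : G} (h : loxX g) : kk g ≠ 0 := by
  intro hk
  obtain ⟨c, hc, h⟩ := h
  obtain ⟨i, hi, hi'⟩ := exists_agree o (ap g o)
  have hg : g ∈ St i := ⟨hk, hi'⟩
  have h1 : ∀ n : ℕ, ln XX (g ^ n) ≤ 2 * i.natAbs + 1 := by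
    intro n
    have h2 := (St i).pow_mem hg n
    have h3 := ln_XX_le h2.2
    rw [h2.1] at h3
    omega
  obtain ⟨n, hn⟩ := exists_nat_gt ((2 * i.natAbs + 1 : ℝ) / c)
  rw [div_lt_iff₀ hc] at hn
  have h2 := h n
  have h3 : (ln XX (g ^ n) : ℝ) ≤ 2 * i.natAbs + 1 := by exact_mod_cast h1 n
  linarith

theorem end_neg {g h : G} (hg : kk g < 0) (hh : kk h < 0) : endX g h := by
  intro K
  obtain ⟨N, hN⟩ := exists_nat_gt (K + 1 / 2)
  refine ⟨N, fun n m hn hm => ?_⟩
  have h1 := gX_lower (g ^ n) (h ^ m)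
  have h2 : (N : ℤ) ≤ gD (g ^ n) (h ^ m) := by
    unfold gD
    have e1 := MM_ultra (g ^ n) 1 (h ^ m)
    have e2 := MM_comm (g ^ n) 1
    have e3 := MM_right 1 (g ^ n)
    have e4 := MM_right 1 (h ^ m)
    rw [kk_pow] at e3 e4
    have e5 : (n : ℤ) * kk g ≤ -N := by nlinarith
    have e6 : (m : ℤ) * kk h ≤ -N := by nlinarith
    omega
  have h3 : (N : ℝ) ≤ gD (g ^ n) (h ^ m) := by exact_mod_cast h2
  linarith

theorem loxX_t : loxX t := by
  refine ⟨1, one_pos, fun n => ?_⟩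
  have h1 := ln_XX_lower (t ^ n)
  have h2 : MM 1 (t ^ n) ≤ 0 := MM_left _ _
  unfold DD at h1
  rw [kk_pow, kk_t, kk_one] at h1
  have h3 : (n : ℤ) ≤ ln XX (t ^ n) := by omega
  have h4 : (n : ℝ) ≤ ln XX (t ^ n) := by exact_mod_cast h3
  linarith

/-- the second loxodromic element -/
noncomputable def tau : G := tr (single 0 (1, 0))

theorem tau_St : tau ∈ St 0 := by
  refine ⟨rfl, fun j hj => ?_⟩
  rw [tau, ap_tr, single_apply, if_neg (by omega), add_zero]

theorem tau_o_zero : ap tau o 0 = (1, 0) := by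
  rw [tau, ap_tr, single_apply, if_pos rfl]; simp

theorem conj_pow' (a b : G) (n : ℕ) : (a * b * a⁻¹) ^ n = a * b ^ n * a⁻¹ := conj_pow

theorem loxX_conj : loxX (tau * t * tau⁻¹) := by
  refine ⟨1, one_pos, fun n => ?_⟩
  have h1 := ln_XX_lower ((tau * t * tau⁻¹) ^ n)
  have h2 : MM 1 ((tau * t * tau⁻¹) ^ n) ≤ 0 := MM_left _ _
  unfold DD at h1
  rw [kk_pow, kk_one] at h1
  have h5 : kk (tau * t * tau⁻¹) = 1 := by simp [tau]
  rw [h5] at h1
  have h3 : (n : ℤ) ≤ ln XX ((tau * t * tau⁻¹) ^ n) := by omega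
  have h4 : (n : ℝ) ≤ ln XX ((tau * t * tau⁻¹) ^ n) := by exact_mod_cast h3
  linarith

theorem not_end1 : ¬ endX t (tau * t * tau⁻¹) := by
  intro h
  obtain ⟨N, hN⟩ := h 2
  have h1 := hN (N + 1) (N + 1) (by omega) (by omega)
  have h2 := gX_upper (t ^ (N + 1)) ((tau * t * tau⁻¹) ^ (N + 1))
  have h3 : gD (t ^ (N + 1)) ((tau * t * tau⁻¹) ^ (N + 1)) ≤ 0 := by
    have e1 : MM (t ^ (N + 1)) ((tau * t * tau⁻¹) ^ (N + 1)) ≤ 0 := by
      by_contra hc
      have h4 := MM_agree (t ^ (N + 1)) ((tau * t * tau⁻¹) ^ (N + 1)) 0 (by omega)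
      have h5 : ap (t ^ (N + 1)) o = o := by
        have := ap_tzpow_o ((N + 1 : ℕ) : ℤ)
        rwa [zpow_natCast] at this
      rw [h5, conj_pow', ap_mul, ap_mul] at h4
      have h6 : ap (t ^ (N + 1)) (ap tau⁻¹ o) 0 = 0 := by
        rw [ap_tpow]
        have h7 : agree o (ap tau⁻¹ o) 0 := ((St 0).inv_mem tau_St).2
        exact (h7 _ (by push_cast; omega)).symm
      rw [tau, ap_tr, ← tau, h6, single_apply, if_pos rfl, o_apply, zero_add] at h4
      exact absurd (congrArg Prod.fst h4) (by norm_num)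
    have e2 : 0 ≤ MM 1 (t ^ (N + 1)) := by
      apply le_MM le_rfl
      · rw [kk_pow, kk_t]; positivity
      · intro j hj
        rw [ap_tpow]; rfl
    have e3 : 0 ≤ MM 1 ((tau * t * tau⁻¹) ^ (N + 1)) := by
      apply le_MM (l := 0) (by rw [kk_one])
      · rw [kk_pow]
        have h5 : kk (tau * t * tau⁻¹) = 1 := by simp [tau]
        rw [h5]; positivity
      · rw [conj_pow', ap_mul, ap_mul]
        intro j hj
        have h7 : agree o (ap tau⁻¹ o) 0 := ((St 0).inv_mem tau_St).2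
        rw [tau, ap_tr, ← tau, ap_tpow, ← h7 _ (by push_cast; omega), single_apply,
          if_neg (by omega), add_zero]
        rfl
    unfold gD
    omega
  have h4 : (gD (t ^ (N + 1)) ((tau * t * tau⁻¹) ^ (N + 1)) : ℝ) ≤ 0 := by exact_mod_cast h3
  linarith

theorem not_end2 : ¬ endX t (tau * t * tau⁻¹)⁻¹ := by
  intro h
  obtain ⟨N, hN⟩ := h 2
  have h1 := hN (N + 1) (N + 1) (by omega) (by omega)
  have h2 := gX_upper (t ^ (N + 1)) ((tau * t * tau⁻¹)⁻¹ ^ (N + 1))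
  have h5 : kk ((tau * t * tau⁻¹)⁻¹ ^ (N + 1)) = -(N + 1 : ℤ) := by
    rw [kk_pow, kk_inv]
    have h5 : kk (tau * t * tau⁻¹) = 1 := by simp [tau]
    rw [h5]; push_cast; ring
  have h3 : gD (t ^ (N + 1)) ((tau * t * tau⁻¹)⁻¹ ^ (N + 1)) ≤ 0 := by
    have e1 := MM_right (t ^ (N + 1)) ((tau * t * tau⁻¹)⁻¹ ^ (N + 1))
    rw [h5] at e1
    have e2 : 0 ≤ MM 1 (t ^ (N + 1)) := by
      apply le_MM le_rfl
      · rw [kk_pow, kk_t]; positivity
      · intro j hj
        rw [ap_tpow]; rfl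
    have e3 : -(N + 1 : ℤ) ≤ MM 1 ((tau * t * tau⁻¹)⁻¹ ^ (N + 1)) := by
      apply le_MM
      · rw [kk_one]; omega
      · rw [h5]
      · have h6 : (tau * t * tau⁻¹)⁻¹ ^ (N + 1) = tau * t⁻¹ ^ (N + 1) * tau⁻¹ := by
          rw [show (tau * t * tau⁻¹)⁻¹ = tau * t⁻¹ * tau⁻¹ by group, conj_pow']
        rw [h6, ap_mul, ap_mul]
        intro j hj
        have h7 : agree o (ap tau⁻¹ o) 0 := ((St 0).inv_mem tau_St).2
        have h8 : t⁻¹ ^ (N + 1) = t ^ (-((N + 1 : ℕ) : ℤ)) := by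
          rw [zpow_neg, zpow_natCast, inv_pow]
        rw [tau, ap_tr, ← tau, h8, ap_tzpow, ← h7 _ (by push_cast; omega), single_apply,
          if_neg (by omega), add_zero]
        rfl
    unfold gD
    omega
  have h4 : (gD (t ^ (N + 1)) ((tau * t * tau⁻¹)⁻¹ ^ (N + 1)) : ℝ) ≤ 0 := by exact_mod_cast h3
  linarith

end Pool.Agent.H828_QP
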