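import Pool.Agent.H828_QP.Basic

set_option autoImplicit false

namespace Pool.Agent.H828_QP

theorem perm_inv_self (p : Equiv.Perm S) (c : S) : p⁻¹ (p c) = c := p.symm_apply_apply c

/-- the elements of the group that fix the base point and do not shift the levels -/
def Ao : Subgroup G where
  carrier := {g | kk g = 0 ∧ ap g o = o}
  one_mem' := ⟨rfl, rfl⟩
  mul_mem' := by
    rintro g h ⟨h1, h2⟩ ⟨h3, h4⟩
    exact ⟨by rw [kk_mul, h1, h3, add_zero], by rw [ap_mul, h4, h2]⟩
  inv_mem' := by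
    rintro g ⟨h1, h2⟩
    refine ⟨by rw [kk_inv, h1, neg_zero], ?_⟩
    nth_rewrite 1 [← h2]
    exact ap_inv_ap g o


theorem agree_iff_of_kk {w : G} (hw : kk w = 0) (x y : Om) (i : ℤ) :
    agree (ap w x) (ap w y) i ↔ agree x y i := by
  have := agree_iff w x y i
  rwa [hw, add_zero] at this

theorem ao_agree_iff {w : G} (hw : w ∈ Ao) (y : Om) (i : ℤ) :
    agree o (ap w y) i ↔ agree o y i := by
  have := agree_iff_of_kk hw.1 o y i
  rwa [hw.2] at this

theorem ao_ne {w : G} (hw : w ∈ Ao) {y : Om} (hy : y ≠ o) : ap w y ≠ o := by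
  intro h
  apply hy
  rw [← ap_inv_ap w y, h]
  exact (Ao.inv_mem hw).2

/-- the local action at the vertices of the line towards the base point -/
def Lead (w : G) (ρ : ℤ → Equiv.Perm S) : Prop :=
  ∀ (j : ℤ) (y : Om), agree o y j → ap w y j = ρ j (y j)

/-- the sequence with a single possibly nonzero value -/
def single (j : ℤ) (c : S) : Om := ⟨fun i => if i = j then c else 0, j, fun i hi => if_neg (by omega)⟩

@[simp] theorem single_apply (j : ℤ) (c : S) (i : ℤ) : single j c i = if i = j then c else 0 := rfl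

theorem agree_single (j : ℤ) (c : S) : agree o (single j c) j := fun i hi => by
  rw [single_apply, if_neg (by omega)]; rfl

theorem exists_lead {w : G} (hw : w ∈ Ao) :
    ∃ ρ : ℤ → Equiv.Perm S, (∀ j, ρ j ∈ P0) ∧ Lead w ρ := by
  have h : ∀ j : ℤ, ∃ p ∈ P0, ∀ y : Om, agree o y j → ap w y j = p (y j) := by
    intro j
    obtain ⟨p, hp, hp'⟩ := loc w o j
    refine ⟨p, hp, fun y hy => ?_⟩
    have := hp' y hy
    rwa [hw.1, add_zero] at this
  choose ρ hρ hρ' using h
  exact ⟨ρ, hρ, hρ'⟩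

theorem Lead.zero {w : G} (hw : w ∈ Ao) {ρ : ℤ → Equiv.Perm S} (h : Lead w ρ) (j : ℤ) :
    ρ j 0 = 0 := by
  have := h j o (agree_refl _ _)
  rw [hw.2] at this
  simpa using this.symm

theorem Lead.mul {w w' : G} (hw' : w' ∈ Ao) {ρ ρ' : ℤ → Equiv.Perm S}
    (h : Lead w ρ) (h' : Lead w' ρ') : Lead (w * w') (ρ * ρ') := by
  intro j y hy
  rw [ap_mul, h j _ ((ao_agree_iff hw' y j).2 hy), h' j y hy]
  rfl

theorem Lead.inv {w : G} (hw : w ∈ Ao) {ρ : ℤ → Equiv.Perm S} (h : Lead w ρ) :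
    Lead w⁻¹ ρ⁻¹ := by
  intro j y hy
  have h1 := h j (ap w⁻¹ y) ((ao_agree_iff (Ao.inv_mem hw) y j).2 hy)
  rw [ap_ap_inv] at h1
  rw [Pi.inv_apply, h1, perm_inv_self]

theorem Lead.one : Lead 1 1 := fun _ _ _ => rfl

theorem Lead.pow {w : G} (hw : w ∈ Ao) {ρ : ℤ → Equiv.Perm S} (h : Lead w ρ) (n : ℕ) :
    Lead (w ^ n) (ρ ^ n) := by
  induction n with
  | zero => simpa using Lead.one
  | succ n ih => rw [pow_succ, pow_succ]; exact Lead.mul hw ih h

theorem Lead.zpow {w : G} (hw : w ∈ Ao) {ρ : ℤ → Equiv.Perm S} (h : Lead w ρ) (n : ℤ) :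
    Lead (w ^ n) (ρ ^ n) := by
  cases n with
  | ofNat n => simpa using Lead.pow hw h n
  | negSucc n =>
    rw [zpow_negSucc, zpow_negSucc]
    exact Lead.inv (Ao.pow_mem hw _) (Lead.pow hw h _)

theorem ord_ap {w : G} (hw : w ∈ Ao) (x : Om) : ord (ap w x) = ord x := by
  by_cases hx : x = o
  · rw [hx, hw.2]
  · have h1 := ao_ne hw hx
    apply le_antisymm
    · exact lt_ord hx ((ao_agree_iff hw _ _).1 (ord_agree h1))
    · exact lt_ord h1 ((ao_agree_iff hw _ _).2 (ord_agree hx))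

/-- data for gluing -/
structure GD where
  /-- the family: index (order, leading coefficient) -/
  fam : ℤ → S → G
  /-- the common local action -/
  p : ℤ → Equiv.Perm S
  hA : ∀ j c, fam j c ∈ Ao
  hP : ∀ j, p j ∈ P0
  hL : ∀ j c, ∀ y : Om, agree o y j → ap (fam j c) y j = p j (y j)

namespace GD

variable (D : GD)

theorem p_zero (j : ℤ) : D.p j 0 = 0 := by
  have := D.hL j 0 o (agree_refl _ _)
  rw [(D.hA j 0).2] at this
  simpa using this.symm

theorem p_ne (j : ℤ) {c : S} (hc : c ≠ 0) : D.p j c ≠ 0 := fun h =>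
  hc ((D.p j).injective (h.trans (D.p_zero j).symm))

/-- the glued map -/
noncomputable def F (x : Om) : Om := ap (D.fam (ord x) (x (ord x))) x

theorem F_o : D.F o = o := (D.hA _ _).2

theorem F_ord (x : Om) : ord (D.F x) = ord x := ord_ap (D.hA _ _) x

theorem F_lead {x : Om} (hx : x ≠ o) : D.F x (ord x) = D.p (ord x) (x (ord x)) :=
  D.hL _ _ _ (ord_agree hx)

/-- the inverse data -/
def inv : GD where
  fam j c := (D.fam j ((D.p j)⁻¹ c))⁻¹
  p j := (D.p j)⁻¹
  hA j c := Ao.inv_mem (D.hA _ _)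
  hP j := P0.inv_mem (D.hP j)
  hL j c y hy := by
    have h1 := D.hL j ((D.p j)⁻¹ c) (ap (D.fam j ((D.p j)⁻¹ c))⁻¹ y)
      ((ao_agree_iff (Ao.inv_mem (D.hA _ _)) y j).2 hy)
    rw [ap_ap_inv] at h1
    rw [h1, perm_inv_self]

theorem inv_F_F (x : Om) : D.inv.F (D.F x) = x := by
  by_cases hx : x = o
  · subst hx; rw [D.F_o]; exact D.inv.F_o
  · have h : D.inv.F (D.F x) = ap (D.fam (ord x) (x (ord x)))⁻¹ (D.F x) := by
      change ap (D.fam (ord (D.F x)) ((D.p (ord (D.F x)))⁻¹ ((D.F x) (ord (D.F x)))))⁻¹ (D.F x) = _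
      rw [D.F_ord, D.F_lead hx, perm_inv_self]
    rw [h]
    exact ap_inv_ap _ _

theorem F_inv_F (x : Om) : D.F (D.inv.F x) = x := by
  by_cases hx : x = o
  · subst hx; rw [D.inv.F_o]; exact D.F_o
  · have h : D.F (D.inv.F x) = ap (D.fam (ord x) ((D.p (ord x))⁻¹ (x (ord x)))) (D.inv.F x) := by
      change ap (D.fam (ord (D.inv.F x)) ((D.inv.F x) (ord (D.inv.F x)))) (D.inv.F x) = _
      rw [D.inv.F_ord, D.inv.F_lead hx]
      rfl
    rw [h]
    exact ap_ap_inv _ _

theorem loc_F : Loc D.F 0 := by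
  intro x i
  by_cases hx : agree o x i
  · refine ⟨D.p i, D.hP i, fun y hy => ?_⟩
    rw [add_zero]
    have hy' : agree o y i := hx.trans hy
    by_cases hyo : y = o
    · subst hyo; rw [D.F_o, o_apply, D.p_zero]
    · rcases eq_or_lt_of_le (lt_ord hyo hy') with h | h
      · rw [h]; exact D.F_lead hyo
      · have h1 : D.F y ≠ o := ao_ne (D.hA _ _) hyo
        have h2 := ord_agree h1 i (by rw [D.F_ord]; exact h)
        have h3 := ord_agree hyo i h
        rw [← h2, ← h3, o_apply, D.p_zero]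
  · have hxo : x ≠ o := by rintro rfl; exact hx (agree_refl _ _)
    have hlt : ord x < i := by
      by_contra hc
      exact hx ((ord_agree hxo).mono (by omega))
    obtain ⟨q, hq, hq'⟩ := loc (D.fam (ord x) (x (ord x))) x i
    refine ⟨q, hq, fun y hy => ?_⟩
    have h1 : ord y = ord x :=
      ord_eq (by rw [← hy _ hlt]; exact ord_ne hxo) ((ord_agree hxo).trans (hy.mono hlt.le))
    have h2 := hq' y hy
    rw [(D.hA _ _).1] at h2
    rw [← h2]
    unfold F
    rw [h1, hy _ hlt]

/-- the glued element -/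
noncomputable def g : G := mkG D.F D.inv.F 0 D.inv_F_F D.F_inv_F D.loc_F
  (by simpa using D.inv.loc_F)

@[simp] theorem ap_g (x : Om) : ap D.g x = ap (D.fam (ord x) (x (ord x))) x := rfl

theorem g_mem : D.g ∈ Ao := ⟨rfl, D.F_o⟩

theorem lead_g : Lead D.g D.p := by
  intro j y hy
  by_cases hyo : y = o
  · subst hyo; rw [(D.g_mem).2, o_apply, D.p_zero]
  · rcases eq_or_lt_of_le (lt_ord hyo hy) with h | h
    · rw [h]; exact D.F_lead hyo
    · have h1 : D.F y ≠ o := ao_ne (D.hA _ _) hyo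
      have h2 := ord_agree h1 j (by rw [D.F_ord]; exact h)
      have h3 := ord_agree hyo j h
      change D.F y j = _
      rw [← h2, ← h3, o_apply, D.p_zero]

end GD

/-- gluing along the levels -/
noncomputable def levG (w : ℤ → Ao) : GD where
  fam j _ := w j
  p j := (exists_lead (w j).2).choose j
  hA j _ := (w j).2
  hP j := (exists_lead (w j).2).choose_spec.1 j
  hL j _ y hy := (exists_lead (w j).2).choose_spec.2 j y hy

theorem ap_levG (w : ℤ → Ao) (x : Om) : ap (levG w).g x = ap (w (ord x)) x := rfl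

/-- gluing along the levels, as a homomorphism -/
noncomputable def lev : (ℤ → Ao) →* Ao where
  toFun w := ⟨(levG w).g, (levG w).g_mem⟩
  map_one' := by
    apply Subtype.ext
    apply G.ext rfl
    intro x
    rfl
  map_mul' v w := by
    apply Subtype.ext
    refine G.ext (by simp [GD.g]) ?_
    intro x
    change ap (levG (v * w)).g x = ap (levG v).g (ap (levG w).g x)
    rw [ap_levG, ap_levG, ap_levG, ord_ap (w (ord x)).2]
    rfl

theorem ap_lev (w : ℤ → Ao) (x : Om) : ap (lev w : Ao) x = ap (w (ord x)) x := rfl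

theorem lev_const (w : Ao) : lev (fun _ => w) = w := by
  apply Subtype.ext
  refine G.ext ?_ fun x => rfl
  rw [w.2.1]; rfl

open Classical in
/-- restriction to the levels in `M` -/
noncomputable def res (M : Set ℤ) : Ao →* Ao where
  toFun w := lev (fun j => if j ∈ M then w else 1)
  map_one' := by
    have : (fun j : ℤ => if j ∈ M then (1 : Ao) else 1) = 1 := by ext1 j; simp
    rw [this, map_one]
  map_mul' v w := by
    rw [← map_mul]
    congr 1
    ext1 j
    by_cases h : j ∈ M <;> simp [h]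

open Classical in
theorem res_def (M : Set ℤ) (w : Ao) : res M w = lev (fun j => if j ∈ M then w else 1) := rfl

theorem res_univ (w : Ao) : res Set.univ w = w := by
  rw [res_def]
  simp only [Set.mem_univ, if_true]
  exact lev_const w

theorem res_empty (w : Ao) : res ∅ w = 1 := by
  rw [res_def]
  simp only [Set.mem_empty_iff_false, if_false]
  exact map_one lev

theorem res_union {M N : Set ℤ} (h : Disjoint M N) (w : Ao) :
    res (M ∪ N) w = res M w * res N w := by
  rw [res_def, res_def, res_def, ← map_mul]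
  congr 1
  ext1 j
  by_cases h1 : j ∈ M
  · have h2 : j ∉ N := Set.disjoint_left.1 h h1
    simp [h1, h2]
  · by_cases h2 : j ∈ N <;> simp [h1, h2]

open Pointwise in
/-- commutators with an element supported on the levels in `M` -/
theorem comm_res (M : Set ℤ) (y z : Ao) :
    y * res M z * y⁻¹ * (res M z)⁻¹ = res M (y * z * y⁻¹ * z⁻¹) := by
  conv_lhs => rw [← lev_const y]
  rw [res_def, res_def, ← map_mul, ← map_inv, ← map_mul, ← map_inv, ← map_mul]
  congr 1
  ext1 j
  by_cases h : j ∈ M <;> simp [h]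

theorem comm_res' (M : Set ℤ) (y z : Ao) :
    res M y * res M z * (res M y)⁻¹ * (res M z)⁻¹ = res M (y * z * y⁻¹ * z⁻¹) := by
  simp only [map_mul, map_inv]

theorem t_conj_mem {w : G} (hw : w ∈ Ao) (a : ℤ) : t ^ a * w * (t ^ a)⁻¹ ∈ Ao := by
  refine ⟨?_, ?_⟩
  · simp [hw.1]
  · rw [ap_mul, ap_mul, ← zpow_neg, ap_tzpow_o, hw.2, ap_tzpow_o]

/-- conjugation by a power of the shift -/
def tconj (a : ℤ) (w : Ao) : Ao := ⟨t ^ a * w * (t ^ a)⁻¹, t_conj_mem w.2 a⟩

theorem tconj_tconj (a : ℤ) (w : Ao) : tconj a (tconj (-a) w) = w := by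
  apply Subtype.ext
  change t ^ a * (t ^ (-a) * (w : G) * (t ^ (-a))⁻¹) * (t ^ a)⁻¹ = w
  rw [zpow_neg]; group

theorem ord_t (a : ℤ) {x : Om} (hx : x ≠ o) : ord (ap (t ^ a) x) = ord x + a := by
  apply ord_eq
  · rw [ap_tzpow, add_sub_cancel_right]; exact ord_ne hx
  · intro i hi
    rw [ap_tzpow]
    exact ord_agree hx (i - a) (by omega)

theorem ap_o_of_mem (w : Ao) : ap w o = o := w.2.2

/-- conjugation by the shift moves the levels -/
theorem tconj_res (a : ℤ) (M : Set ℤ) (w : Ao) :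
    tconj a (res M w) = res {j | j - a ∈ M} (tconj a w) := by
  apply Subtype.ext
  refine G.ext ?_ fun x => ?_
  · rw [(tconj a (res M w)).2.1, (res {j | j - a ∈ M} (tconj a w)).2.1]
  · by_cases hx : x = o
    · subst hx; rw [ap_o_of_mem, ap_o_of_mem]
    · change ap (t ^ a) (ap (res M w) (ap (t ^ a)⁻¹ x)) = _
      rw [res_def, res_def, ap_lev, ap_lev, ← zpow_neg, ord_t _ hx]
      by_cases h : ord x - a ∈ M
      · rw [if_pos (by exact h), if_pos (by exact h)]
        change _ = ap (t ^ a) (ap w (ap (t ^ a)⁻¹ x))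
        rw [← zpow_neg]
      · rw [if_neg (by exact h), if_neg (by exact h)]
        change ap (t ^ a) (ap (t ^ (-a)) x) = x
        rw [zpow_neg, ap_ap_inv]

end Pool.Agent.H828_QP
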