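import Pool.Agent.H828_QP.Glue

set_option autoImplicit false

namespace Pool.Agent.H828_QP

/-- the linear maps of determinant one -/
def P00 : Subgroup (Equiv.Perm S) where
  carrier := {p | p ∈ P0 ∧ p 0 = 0}
  one_mem' := ⟨P0.one_mem, rfl⟩
  mul_mem' := by
    rintro p q ⟨h1, h2⟩ ⟨h3, h4⟩
    exact ⟨P0.mul_mem h1 h3, by rw [Equiv.Perm.mul_apply, h4, h2]⟩
  inv_mem' := by
    rintro p ⟨h1, h2⟩
    refine ⟨P0.inv_mem h1, ?_⟩
    nth_rewrite 1 [← h2]
    exact perm_inv_self p 0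

open Classical in
/-- change the leading coefficient only -/
noncomputable def rigF (ρ : ℤ → P00) (x : Om) : Om :=
  ⟨fun i => if agree o x i then (ρ i : Equiv.Perm S) (x i) else x i, by
    obtain ⟨N, hN⟩ := x.h
    refine ⟨N, fun i hi => ?_⟩
    have h : agree o x i := fun j hj => by rw [hN j (by omega)]; rfl
    rw [if_pos h, hN i hi, (ρ i).2.2]⟩

open Classical in
theorem rigF_apply (ρ : ℤ → P00) (x : Om) (i : ℤ) :
    rigF ρ x i = if agree o x i then (ρ i : Equiv.Perm S) (x i) else x i := rfl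

theorem agree_rigF (ρ : ℤ → P00) (x : Om) (i : ℤ) : agree o (rigF ρ x) i ↔ agree o x i := by
  constructor
  · intro h
    by_contra hc
    have hxo : x ≠ o := by rintro rfl; exact hc (agree_refl _ _)
    have hlt : ord x < i := by
      by_contra hc'
      exact hc ((ord_agree hxo).mono (by omega))
    have h1 := h _ hlt
    rw [rigF_apply, if_pos (ord_agree hxo), o_apply] at h1
    apply ord_ne hxo
    have h2 := (ρ (ord x)).2.2
    rw [← h2] at h1
    exact ((ρ (ord x) : Equiv.Perm S).injective h1).symm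
  · intro h j hj
    rw [rigF_apply, if_pos (h.mono hj.le), ← h j hj, o_apply, (ρ j).2.2]

theorem rigF_mul (ρ ρ' : ℤ → P00) (x : Om) : rigF ρ (rigF ρ' x) = rigF (ρ * ρ') x := by
  apply Om.ext'
  intro i
  rw [rigF_apply, rigF_apply ρ', rigF_apply (ρ * ρ')]
  by_cases h : agree o x i
  · rw [if_pos ((agree_rigF _ _ _).2 h), if_pos h, if_pos h]; rfl
  · rw [if_neg (fun h' => h ((agree_rigF _ _ _).1 h')), if_neg h, if_neg h]

theorem rigF_one (x : Om) : rigF 1 x = x := by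
  apply Om.ext'
  intro i
  rw [rigF_apply]
  split_ifs <;> rfl

theorem loc_rigF (ρ : ℤ → P00) : Loc (rigF ρ) 0 := by
  intro x i
  by_cases h : agree o x i
  · refine ⟨ρ i, (ρ i).2.1, fun y hy => ?_⟩
    rw [add_zero, rigF_apply, if_pos (h.trans hy)]
  · refine ⟨1, P0.one_mem, fun y hy => ?_⟩
    rw [add_zero, rigF_apply, if_neg (fun h' => h (h'.trans hy.symm))]
    rfl

/-- rigid element -/
noncomputable def rigG (ρ : ℤ → P00) : G := mkG (rigF ρ) (rigF ρ⁻¹) 0
  (fun x => by rw [rigF_mul, inv_mul_cancel, rigF_one])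
  (fun x => by rw [rigF_mul, mul_inv_cancel, rigF_one]) (loc_rigF ρ) (by simpa using loc_rigF ρ⁻¹)

theorem rigG_mem (ρ : ℤ → P00) : rigG ρ ∈ Ao := by
  refine ⟨rfl, ?_⟩
  apply Om.ext'
  intro i
  change rigF ρ o i = _
  rw [rigF_apply, if_pos (agree_refl _ _), o_apply, (ρ i).2.2]

/-- rigid elements, as a homomorphism -/
noncomputable def rig : (ℤ → P00) →* Ao where
  toFun ρ := ⟨rigG ρ, rigG_mem ρ⟩
  map_one' := by
    apply Subtype.ext
    exact G.ext rfl fun x => rigF_one x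
  map_mul' ρ ρ' := by
    apply Subtype.ext
    refine G.ext (by simp [rigG]) fun x => ?_
    exact (rigF_mul ρ ρ' x).symm

theorem lead_rig (ρ : ℤ → P00) : Lead (rig ρ) (fun j => (ρ j : Equiv.Perm S)) := by
  intro j y hy
  change rigF ρ y j = _
  rw [rigF_apply, if_pos hy]

/-! ### three kinds of linear maps -/

/-- upper triangular -/
def EE (u : ℚ) : P00 := ⟨⟨fun v => (v.1 + u * v.2, v.2), fun v => (v.1 - u * v.2, v.2),
    fun v => by ext <;> simp, fun v => by ext <;> simp⟩,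
  ⟨1, u, 0, 1, 0, 0, by norm_num, fun v => by ext <;> simp⟩, by ext <;> simp⟩

/-- lower triangular -/
def FF (u : ℚ) : P00 := ⟨⟨fun v => (v.1, v.2 + u * v.1), fun v => (v.1, v.2 - u * v.1),
    fun v => by ext <;> simp, fun v => by ext <;> simp⟩,
  ⟨1, 0, u, 1, 0, 0, by norm_num, fun v => by ext <;> simp <;> ring⟩, by ext <;> simp⟩

/-- diagonal -/
def ZZ : P00 := ⟨⟨fun v => (2 * v.1, v.2 / 2), fun v => (v.1 / 2, 2 * v.2),
    fun v => by ext <;> simp <;> ring, fun v => by ext <;> simp <;> ring⟩,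
  ⟨2, 0, 0, 1 / 2, 0, 0, by norm_num, fun v => by ext <;> simp <;> ring⟩, by ext <;> simp⟩

theorem EE_apply (u : ℚ) (v : S) : (EE u : Equiv.Perm S) v = (v.1 + u * v.2, v.2) := rfl
theorem FF_apply (u : ℚ) (v : S) : (FF u : Equiv.Perm S) v = (v.1, v.2 + u * v.1) := rfl
theorem ZZ_apply (v : S) : (ZZ : Equiv.Perm S) v = (2 * v.1, v.2 / 2) := rfl

theorem P00.ext' {p q : P00} (h : ∀ v, (p : Equiv.Perm S) v = (q : Equiv.Perm S) v) : p = q :=
  Subtype.ext (Equiv.ext h)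

theorem comm_EE (u : ℚ) : EE (-u / 3) * ZZ = EE u * ZZ * EE (-u / 3) := by
  apply P00.ext'
  intro v
  change (EE (-u / 3) : Equiv.Perm S) ((ZZ : Equiv.Perm S) v) =
    (EE u : Equiv.Perm S) ((ZZ : Equiv.Perm S) ((EE (-u / 3) : Equiv.Perm S) v))
  simp only [EE_apply, ZZ_apply]
  ext
  · simp only; ring
  · rfl

theorem comm_FF (u : ℚ) : FF (4 * u / 3) * ZZ = FF u * ZZ * FF (4 * u / 3) := by
  apply P00.ext'
  intro v
  change (FF (4 * u / 3) : Equiv.Perm S) ((ZZ : Equiv.Perm S) v) =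
    (FF u : Equiv.Perm S) ((ZZ : Equiv.Perm S) ((FF (4 * u / 3) : Equiv.Perm S) v))
  simp only [FF_apply, ZZ_apply]
  ext
  · rfl
  · simp only; ring

theorem decomp (p : P00) : ∃ u1 u2 u3 u4 : ℚ, p = FF u1 * EE u2 * FF u3 * EE u4 := by
  obtain ⟨p, ⟨a, b, c, d, e, f, h, hp⟩, h0⟩ := p
  have he : e = 0 ∧ f = 0 := by
    have := hp 0
    rw [h0] at this
    simp only [Prod.fst_zero, Prod.snd_zero, mul_zero, zero_add, add_zero] at this
    exact ⟨(congrArg Prod.fst this).symm, (congrArg Prod.snd this).symm⟩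
  obtain ⟨rfl, rfl⟩ := he
  by_cases hc : c = 0
  · subst hc
    have ha : a ≠ 0 := by rintro rfl; simp at h
    refine ⟨-1, (a - 1) / a, a, (b + d - 1) / a, P00.ext' fun v => ?_⟩
    change p v = (FF (-1) : Equiv.Perm S) ((EE ((a - 1) / a) : Equiv.Perm S)
      ((FF a : Equiv.Perm S) ((EE ((b + d - 1) / a) : Equiv.Perm S) v)))
    rw [hp]
    simp only [FF_apply, EE_apply]
    ext
    · simp only; field_simp; linear_combination (-v.2) * h
    · simp only; field_simp; linear_combination v.2 * h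
  · refine ⟨0, (a - 1) / c, c, (d - 1) / c, P00.ext' fun v => ?_⟩
    change p v = (FF 0 : Equiv.Perm S) ((EE ((a - 1) / c) : Equiv.Perm S)
      ((FF c : Equiv.Perm S) ((EE ((d - 1) / c) : Equiv.Perm S) v)))
    rw [hp]
    simp only [FF_apply, EE_apply]
    ext
    · simp only; field_simp; linear_combination (-v.2) * h
    · simp only; field_simp; ring

/-- the index function on the nonzero vectors -/
noncomputable def NN (v : S) : ℤ :=
  if v.1 ≠ 0 then padicValRat 2 v.1 else -padicValRat 2 v.2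

theorem NN_ZZ {v : S} (hv : v ≠ 0) : NN ((ZZ : Equiv.Perm S) v) = NN v + 1 := by
  rw [ZZ_apply]
  unfold NN
  have h2 : padicValRat 2 (2 : ℚ) = 1 := by
    have := padicValRat.self (p := 2) (by norm_num)
    simpa using this
  haveI : Fact (Nat.Prime 2) := ⟨Nat.prime_two⟩
  by_cases h : v.1 = 0
  · have h' : v.2 ≠ 0 := fun h' => hv (Prod.ext h h')
    rw [if_neg (by simp [h]), if_neg (by simp [h])]
    simp only
    rw [padicValRat.div h' (by norm_num), h2]
    ring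
  · rw [if_pos (by simpa using h), if_pos h]
    simp only
    rw [padicValRat.mul (by norm_num) h, h2]
    ring

/-! ### every element of `Ao` is a product of five commutators -/

/-- the element all commutators are taken with -/
noncomputable def zz : Ao := rig (fun _ => ZZ)

theorem lead_zz : Lead zz (fun _ => (ZZ : Equiv.Perm S)) := lead_rig _

/-- the gluing data that turn an element without rigid part into a commutator -/
noncomputable def phiG (f : Ao) (hf : Lead f 1) : GD where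
  fam _ c := ((f * zz) ^ (NN c) * (zz ^ (NN c))⁻¹ : Ao)
  p _ := 1
  hA _ c := ((f * zz) ^ (NN c) * (zz ^ (NN c))⁻¹ : Ao).2
  hP _ := P0.one_mem
  hL j c y hy := by
    have h1 : Lead (f * zz : Ao) (1 * fun _ => (ZZ : Equiv.Perm S)) := Lead.mul zz.2 hf lead_zz
    have h2 := Lead.zpow (f * zz).2 h1 (NN c)
    have h3 := Lead.inv (Ao.zpow_mem zz.2 (NN c)) (Lead.zpow zz.2 lead_zz (NN c))
    have h4 := Lead.mul (Ao.inv_mem (Ao.zpow_mem zz.2 (NN c))) h2 h3
    rw [one_mul, mul_inv_cancel] at h4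
    have := h4 j y hy
    simpa using this

theorem zpow_comm_aux {H : Type*} [Group H] (a z : H) (n : ℤ) :
    a ^ (n + 1) * (z ^ (n + 1))⁻¹ * z = a * (a ^ n * (z ^ n)⁻¹) := by
  rw [add_comm, zpow_one_add, zpow_one_add, mul_inv_rev]
  group

theorem phi_spec (f : Ao) (hf : Lead f 1) : ∃ φ : Ao, φ * zz = f * zz * φ := by
  refine ⟨⟨(phiG f hf).g, (phiG f hf).g_mem⟩, ?_⟩
  apply Subtype.ext
  refine G.ext ?_ fun x => ?_
  · simp [(phiG f hf).g_mem.1, f.2.1, zz.2.1]
  · by_cases hx : x = o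
    · subst hx
      change ap (phiG f hf).g (ap zz o) = ap f (ap zz (ap (phiG f hf).g o))
      rw [(phiG f hf).g_mem.2, zz.2.2, (phiG f hf).g_mem.2, f.2.2]
    · change ap (phiG f hf).g (ap zz x) = ap f (ap zz (ap (phiG f hf).g x))
      rw [GD.ap_g, GD.ap_g, ord_ap zz.2, lead_zz _ _ (ord_agree hx)]
      change ap ((f * zz) ^ (NN _) * (zz ^ (NN _))⁻¹ : Ao) (ap zz x) =
        ap f (ap zz (ap ((f * zz) ^ (NN _) * (zz ^ (NN _))⁻¹ : Ao) x))
      rw [NN_ZZ (ord_ne hx), ← ap_mul, ← ap_mul, ← ap_mul]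
      congr 1
      simp only [Subgroup.coe_mul, InvMemClass.coe_inv, SubgroupClass.coe_zpow]
      rw [zpow_comm_aux]

theorem comm_of (x z w : Ao) (h : x * z = w * z * x) : x * z * x⁻¹ * z⁻¹ = w := by
  rw [h]; group

theorem five (w : Ao) : ∃ x1 x2 x3 x4 x5 : Ao,
    w = (x1 * zz * x1⁻¹ * zz⁻¹) * (x2 * zz * x2⁻¹ * zz⁻¹) * (x3 * zz * x3⁻¹ * zz⁻¹) *
      (x4 * zz * x4⁻¹ * zz⁻¹) * (x5 * zz * x5⁻¹ * zz⁻¹) := by
  obtain ⟨ρ, hρ, hw⟩ := exists_lead w.2
  have hρ' : ∀ j, ρ j ∈ P00 := fun j => ⟨hρ j, hw.zero w.2 j⟩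
  choose u1 u2 u3 u4 hu using fun j => decomp ⟨ρ j, hρ' j⟩
  have hr : rig (fun j => (⟨ρ j, hρ' j⟩ : P00)) =
      rig (fun j => FF (u1 j)) * rig (fun j => EE (u2 j)) * rig (fun j => FF (u3 j)) *
        rig (fun j => EE (u4 j)) := by
    rw [← map_mul, ← map_mul, ← map_mul]
    congr 1
    ext1 j
    exact hu j
  have hf : Lead (w * (rig (fun j => (⟨ρ j, hρ' j⟩ : P00)))⁻¹ : Ao) 1 := by
    have h1 := Lead.inv (rig (fun j => (⟨ρ j, hρ' j⟩ : P00))).2 (lead_rig _)
    have h2 := Lead.mul (Ao.inv_mem (rig (fun j => (⟨ρ j, hρ' j⟩ : P00))).2) hw h1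
    have h3 : (ρ * (fun j => ((⟨ρ j, hρ' j⟩ : P00) : Equiv.Perm S))⁻¹ : ℤ → Equiv.Perm S) = 1 :=
      mul_inv_cancel ρ
    rw [h3] at h2
    exact h2
  obtain ⟨φ, hφ⟩ := phi_spec _ hf
  refine ⟨φ, rig (fun j => FF (4 * u1 j / 3)), rig (fun j => EE (-u2 j / 3)),
    rig (fun j => FF (4 * u3 j / 3)), rig (fun j => EE (-u4 j / 3)), ?_⟩
  rw [comm_of _ _ _ hφ]
  have hF : ∀ u : ℤ → ℚ, rig (fun j => FF (4 * u j / 3)) * zz *
      (rig (fun j => FF (4 * u j / 3)))⁻¹ * zz⁻¹ = rig (fun j => FF (u j)) := by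
    intro u
    apply comm_of
    rw [zz, ← map_mul, ← map_mul, ← map_mul]
    congr 1
    ext1 j
    exact comm_FF (u j)
  have hE : ∀ u : ℤ → ℚ, rig (fun j => EE (-u j / 3)) * zz *
      (rig (fun j => EE (-u j / 3)))⁻¹ * zz⁻¹ = rig (fun j => EE (u j)) := by
    intro u
    apply comm_of
    rw [zz, ← map_mul, ← map_mul, ← map_mul]
    congr 1
    ext1 j
    exact comm_EE (u j)
  rw [hF, hE, hF, hE]
  rw [show ∀ a b c d e : Ao, a * b * c * d * e = a * (b * c * d * e) from fun a b c d e => by group,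
    ← hr]
  group

end Pool.Agent.H828_QP
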