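import Pool.Agent.H828_QP.Geo

set_option autoImplicit false

open Pointwise

namespace Pool.Agent.H828_QP

variable {L : G → ℕ}

theorem case1 (hL : IsLen L) {C : ℕ} (hC : ∀ w ∈ St 0, L w ≤ C) {u g : G} {l : ℤ}
    (hu : L u ≤ 1) (h : ¬ agree o (ap u o) l) (hg : g ∈ St l) : L g ≤ 2 + 2 * C := by
  have h1 : u⁻¹ * cut l g hg * u ∈ Ao := by
    refine ⟨by simp [kk_cut], ?_⟩
    rw [ap_mul, ap_mul, ap_cut_neg hg h, ap_inv_ap]
  have h2 := hC _ (Ao_le_St 0 h1)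
  have h3 := hL.conj u (u⁻¹ * cut l g hg * u)
  rw [show u * (u⁻¹ * cut l g hg * u) * u⁻¹ = cut l g hg by group] at h3
  have h4 := hC _ (Ao_le_St 0 (cut_inv_mul hg))
  have h5 := hL.mul (cut l g hg) ((cut l g hg)⁻¹ * g)
  rw [mul_inv_cancel_left] at h5
  omega

theorem case2 (hL : IsLen L) {C : ℕ} (hC : ∀ w ∈ St 0, L w ≤ C) {u g : G} {l : ℤ}
    (hu : L u ≤ 1) (hk : kk u ≤ l) (h : agree o (ap u o) l) (hg : g ∈ St l) : L g ≤ 2 + C := by
  have h1 : u⁻¹ * g * u ∈ St 0 := by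
    refine ⟨by simp [hg.1], ?_⟩
    rw [← agree_iff u, zero_add, ap_mul, ap_mul, ap_ap_inv]
    exact (h.symm.trans ((St.agree_iff hg _).2 h)).mono hk
  have h2 := hC _ h1
  have h3 := hL.conj u (u⁻¹ * g * u)
  rw [show u * (u⁻¹ * g * u) * u⁻¹ = g by group] at h3
  omega

theorem dich (hL : IsLen L) (Y : Set G) (hY : ∀ y ∈ Y, L y ≤ 1) :
    (∃ m : ℕ, ∀ y ∈ Y, agree o (ap y o) (-(m : ℤ)) ∧ (kk y).natAbs ≤ m) ∨
      ∃ C : ℕ, ∀ g, kk g = 0 → L g ≤ C := by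
  obtain ⟨C, hC⟩ := bdd_St hL
  by_contra hcon
  push Not at hcon
  obtain ⟨h1, h2⟩ := hcon
  obtain ⟨g, hg, hg'⟩ := h2 (2 + 2 * C)
  obtain ⟨i, hi, hi'⟩ := exists_agree o (ap g o)
  obtain ⟨m, rfl⟩ : ∃ m : ℕ, i = -(m : ℤ) := ⟨i.natAbs, by omega⟩
  have hgS : g ∈ St (-(m : ℤ)) := ⟨hg, hi'⟩
  obtain ⟨y, hy, hy'⟩ := h1 m
  -- an element with the right sign
  by_cases ha : agree o (ap y o) (-(m : ℤ))
  · have hk := hy' ha
    obtain ⟨u, hu, huk⟩ : ∃ u : G, L u ≤ 1 ∧ kk u ≤ -(m : ℤ) := by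
      rcases le_total (kk y) 0 with h0 | h0
      · exact ⟨y, hY y hy, by omega⟩
      · exact ⟨y⁻¹, by rw [hL.inv]; exact hY y hy, by rw [kk_inv]; omega⟩
    by_cases hb : agree o (ap u o) (-(m : ℤ))
    · have := case2 hL hC hu huk hb hgS
      omega
    · have := case1 hL hC hu hb hgS
      omega
  · have := case1 hL hC (hY y hy) ha hgS
    omega

section hyper

variable (Y : Set G) (hYc : Subgroup.closure Y = ⊤)

/-- the Gromov product for an arbitrary generating set -/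
noncomputable def gY (a b : G) : ℝ := ((ln Y a : ℝ) + (ln Y b : ℝ) - (ln Y (a⁻¹ * b) : ℝ)) / 2

variable {Y}

theorem isLen_ln (hYc : Subgroup.closure Y = ⊤) : IsLen (ln Y) :=
  ⟨ln_one Y, ln_mul hYc, ln_inv Y⟩

/-- a loxodromic element has a well defined end -/
theorem self_end (hYc : Subgroup.closure Y = ⊤) {δ : ℝ}
    (hyp : ∀ x y z : G, min (gY Y x y) (gY Y y z) - δ ≤ gY Y x z) {g : G}
    (hg : ∃ c : ℝ, 0 < c ∧ ∀ n : ℕ, c * (n : ℝ) ≤ (ln Y (g ^ n) : ℝ)) :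
    ∀ K : ℝ, ∃ N : ℕ, ∀ n m : ℕ, N ≤ n → N ≤ m → K ≤ gY Y (g ^ n) (g ^ m) := by
  obtain ⟨c, hc, hlin⟩ := hg
  have key := seq_key (fun n : ℤ => (ln Y (g ^ n) : ℝ)) (by simp [ln_one])
    (fun n => by simp only [zpow_neg, ln_inv]) (fun n m => by
      simp only [zpow_add]; exact_mod_cast ln_mul hYc _ _) δ (fun i j k => by
      have h := hyp (g ^ i) (g ^ j) (g ^ k)
      have e : ∀ a b : ℤ, (g ^ a)⁻¹ * g ^ b = g ^ (b - a) := fun a b => by
        rw [← zpow_neg, ← zpow_add]; congr 1; ring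
      simp only [gY, e] at h
      exact h) c hc (fun n => by simpa using hlin n)
  intro K
  obtain ⟨N, hN⟩ := key K
  refine ⟨N, fun n m hn hm => ?_⟩
  have h := hN n m hn hm
  have e : (g ^ n)⁻¹ * g ^ m = g ^ ((m : ℤ) - n) := by
    rw [zpow_sub, zpow_natCast, zpow_natCast]
    have := (Commute.refl g).pow_pow m n
    rw [(this.inv_right).eq]
  simp only [zpow_natCast] at h
  rw [gY, e]
  exact h

theorem two_end (hYc : Subgroup.closure Y = ⊤) {δ : ℝ}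
    (hyp : ∀ x y z : G, min (gY Y x y) (gY Y y z) - δ ≤ gY Y x z) {C : ℕ}
    (hC : ∀ g, kk g = 0 → ln Y g ≤ C) {g h : G}
    (hg : ∃ c : ℝ, 0 < c ∧ ∀ n : ℕ, c * (n : ℝ) ≤ (ln Y (g ^ n) : ℝ))
    (hgh : 0 < kk g * kk h) :
    ∀ K : ℝ, ∃ N : ℕ, ∀ n m : ℕ, N ≤ n → N ≤ m → K ≤ gY Y (g ^ n) (h ^ m) := by
  have hkg : kk g ≠ 0 := by rintro h0; rw [h0, zero_mul] at hgh; exact absurd hgh (lt_irrefl _)
  have hkh : kk h ≠ 0 := by rintro h0; rw [h0, mul_zero] at hgh; exact absurd hgh (lt_irrefl _)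
  intro K
  obtain ⟨N, hN⟩ := self_end hYc hyp hg (K + (C + (kk g).natAbs * ln Y t : ℕ))
  refine ⟨N * (kk g).natAbs + N, fun n m hn hm => ?_⟩
  -- the exponent of the comparison power
  have hq : 0 < (kk g).natAbs := Int.natAbs_pos.2 hkg
  have hq' : 0 < (kk h).natAbs := Int.natAbs_pos.2 hkh
  have hm' : N ≤ (m * (kk h).natAbs) / (kk g).natAbs := by
    rw [Nat.le_div_iff_mul_le hq]
    calc N * (kk g).natAbs ≤ m := by omega
      _ = m * 1 := (mul_one _).symm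
      _ ≤ _ := Nat.mul_le_mul_left _ hq'
  have h1 := hN n _ (by omega) hm'
  set m' := (m * (kk h).natAbs) / (kk g).natAbs with hm'def
  have h2 : ln Y ((g ^ m')⁻¹ * h ^ m) ≤ C + (kk g).natAbs * ln Y t := by
    set w := (g ^ m')⁻¹ * h ^ m with hw
    have hkw : (kk w).natAbs ≤ (kk g).natAbs := by
      have e1 : kk w = -(m' * kk g) + m * kk h := by rw [hw, kk_mul, kk_inv, kk_pow, kk_pow]
      have e2 := Nat.div_add_mod (m * (kk h).natAbs) (kk g).natAbs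
      have e3 := Nat.mod_lt (m * (kk h).natAbs) hq
      rw [← hm'def] at e2
      rcases lt_or_gt_of_ne hkg with hs | hs
      · have hs' : kk h < 0 := by nlinarith
        obtain ⟨a, ha⟩ : ∃ a : ℕ, kk g = -(a : ℤ) := ⟨(kk g).natAbs, by omega⟩
        obtain ⟨b, hb⟩ : ∃ b : ℕ, kk h = -(b : ℤ) := ⟨(kk h).natAbs, by omega⟩
        rw [ha, hb] at e1
        simp only [ha, hb, Int.natAbs_neg, Int.natAbs_natCast] at e2 e3 ⊢
        have e4 : kk w = -((m * b % a : ℕ) : ℤ) := by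
          rw [e1]
          zify at e2
          push_cast
          linarith
        rw [e4]; simp only [Int.natAbs_neg, Int.natAbs_natCast]; omega
      · have hs' : 0 < kk h := by nlinarith
        obtain ⟨a, ha⟩ : ∃ a : ℕ, kk g = (a : ℤ) := ⟨(kk g).natAbs, by omega⟩
        obtain ⟨b, hb⟩ : ∃ b : ℕ, kk h = (b : ℤ) := ⟨(kk h).natAbs, by omega⟩
        rw [ha, hb] at e1
        simp only [ha, hb, Int.natAbs_natCast] at e2 e3 ⊢
        have e4 : kk w = ((m * b % a : ℕ) : ℤ) := by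
          rw [e1]
          zify at e2
          push_cast
          linarith
        rw [e4]; simp only [Int.natAbs_natCast]; omega
    have e5 := hC (w * t ^ (-kk w)) (by simp)
    have e6 := ln_mul hYc (w * t ^ (-kk w)) (t ^ kk w)
    have e7 : w * t ^ (-kk w) * t ^ kk w = w := by rw [zpow_neg]; group
    rw [e7] at e6
    have e8 := ln_t_zpow hYc (kk w)
    have e9 : (kk w).natAbs * ln Y t ≤ (kk g).natAbs * ln Y t := Nat.mul_le_mul_right _ hkw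
    omega
  have h3 := ln_mul hYc (h ^ m) ((g ^ m')⁻¹ * h ^ m)⁻¹
  have h4 := ln_mul hYc ((g ^ n)⁻¹ * g ^ m') ((g ^ m')⁻¹ * h ^ m)
  rw [ln_inv, show h ^ m * ((g ^ m')⁻¹ * h ^ m)⁻¹ = g ^ m' by group] at h3
  rw [show (g ^ n)⁻¹ * g ^ m' * ((g ^ m')⁻¹ * h ^ m) = (g ^ n)⁻¹ * h ^ m by group] at h4
  unfold gY at h1 ⊢
  have h5 : (ln Y (g ^ m') : ℝ) ≤ ln Y (h ^ m) + (C + (kk g).natAbs * ln Y t : ℕ) := by
    exact_mod_cast h3.trans (by omega)
  have h6 : (ln Y ((g ^ n)⁻¹ * h ^ m) : ℝ) ≤ ln Y ((g ^ n)⁻¹ * g ^ m') +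
      (C + (kk g).natAbs * ln Y t : ℕ) := by
    exact_mod_cast h4.trans (by omega)
  linarith

theorem lox_kk' {C : ℕ} (hC : ∀ g, kk g = 0 → ln Y g ≤ C) {g : G}
    (hg : ∃ c : ℝ, 0 < c ∧ ∀ n : ℕ, c * (n : ℝ) ≤ (ln Y (g ^ n) : ℝ)) : kk g ≠ 0 := by
  intro hk
  obtain ⟨c, hc, h⟩ := hg
  obtain ⟨n, hn⟩ := exists_nat_gt ((C : ℝ) / c)
  rw [div_lt_iff₀ hc] at hn
  have h2 := h n
  have h3 : (ln Y (g ^ n) : ℝ) ≤ C := by exact_mod_cast hC (g ^ n) (by rw [kk_pow, hk, mul_zero])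
  linarith

end hyper

end Pool.Agent.H828_QP
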